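import Mathlib

/-!
# Affine fundamental theorem and Hua's identity, in the form needed
-/

set_option autoImplicit false

namespace Pool.Agent.H37PG

/-- Additivity of a bijection preserving `K`-lines (in both directions), `|K| ≥ 3`, `K ≠ F`. -/
theorem additive_of_lines {F : Type*} [Field F] (K : Subfield F) (c : F) (hc : c ∈ K)
    (hc0 : c ≠ 0) (hc1 : c ≠ 1) (t : F) (ht : t ∉ K) (φ : F ≃ F) (h0 : φ 0 = 0)
    (L : ∀ x y s : F, s ∈ K → ∃ s' ∈ K, φ (x + s * (y - x)) = φ x + s' * (φ y - φ x))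
    (L' : ∀ x y s : F, s ∈ K → ∃ s' ∈ K,
      φ.symm (x + s * (y - x)) = φ.symm x + s' * (φ.symm y - φ.symm x)) :
    ∀ x y, φ (x + y) = φ x + φ y := by
  have h0' : φ.symm 0 = 0 := by rw [Equiv.symm_apply_eq, h0]
  -- multiples
  have M : ∀ y s : F, s ∈ K → ∃ s' ∈ K, φ (s * y) = s' * φ y := by
    intro y s hs
    obtain ⟨s', hs', h⟩ := L 0 y s hs
    refine ⟨s', hs', ?_⟩
    simpa [h0] using h
  have M' : ∀ y s : F, s ∈ K → ∃ s' ∈ K, φ.symm (s * y) = s' * φ.symm y := by
    intro y s hs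
    obtain ⟨s', hs', h⟩ := L' 0 y s hs
    refine ⟨s', hs', ?_⟩
    simpa [h0'] using h
  have hφ0 : ∀ x, x ≠ 0 → φ x ≠ 0 := by
    intro x hx h
    apply hx
    apply φ.injective
    rw [h, h0]
  -- independent: no s in K with x = s y
  have ind : ∀ x y : F, (∀ s ∈ K, x ≠ s * y) → ∀ s ∈ K, φ x ≠ s * φ y := by
    intro x y h s hs he
    obtain ⟨s', hs', h'⟩ := M' (φ y) s hs
    rw [← he] at h'
    simp only [Equiv.symm_apply_apply] at h'
    exact h s' hs' h'
  have key : ∀ x y : F, x ≠ 0 → y ≠ 0 → (∀ s ∈ K, x ≠ s * y) → (∀ s ∈ K, y ≠ s * x) →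
      ∃ b ∈ K, φ (x + y) = φ x + b * φ y := by
    intro x y hx hy hxy hyx
    have hc1' : (1 : F) - c ≠ 0 := fun h => hc1 (by linear_combination -h)
    have hic : c⁻¹ ∈ K := K.inv_mem hc
    have hi1c : (1 - c)⁻¹ ∈ K := K.inv_mem (K.sub_mem K.one_mem hc)
    obtain ⟨s1, hs1, e1⟩ := M x ((1 - c)⁻¹) hi1c
    obtain ⟨s2, hs2, e2⟩ := M y (c⁻¹) hic
    obtain ⟨s3, hs3, e3⟩ := L ((1 - c)⁻¹ * x) (c⁻¹ * y) c hc
    have hxy' : (1 - c)⁻¹ * x + c * (c⁻¹ * y - (1 - c)⁻¹ * x) = x + y := by
      field_simp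
      ring
    rw [hxy', e1, e2] at e3
    have e4 : φ (x + y) = (s1 * (1 - s3)) * φ x + (s3 * s2) * φ y := by
      rw [e3]; ring
    set a := s1 * (1 - s3) with ha
    set b := s3 * s2 with hb
    have haK : a ∈ K := K.mul_mem hs1 (K.sub_mem K.one_mem hs3)
    have hbK : b ∈ K := K.mul_mem hs3 hs2
    refine ⟨b, hbK, ?_⟩
    have ha1 : a = 1 := by
      by_contra ha1
      have ha1' : (1 : F) - a ≠ 0 := fun h => ha1 (by linear_combination -h)
      have hsK : (1 - a)⁻¹ ∈ K := K.inv_mem (K.sub_mem K.one_mem haK)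
      -- the point on the image line
      obtain ⟨s', hs', e5⟩ := L' (φ x) (φ (x + y)) ((1 - a)⁻¹) hsK
      have e6 : φ x + (1 - a)⁻¹ * (φ (x + y) - φ x) = ((1 - a)⁻¹ * b) * φ y := by
        rw [e4]
        field_simp
        ring
      obtain ⟨s'', hs'', e7⟩ := M' (φ y) ((1 - a)⁻¹ * b) (K.mul_mem hsK hbK)
      rw [e6, e7] at e5
      simp only [Equiv.symm_apply_apply] at e5
      exact hxy (s'' - s') (K.sub_mem hs'' hs') (by linear_combination -e5)
    rw [e4, ha1, one_mul]
  have add_ind : ∀ x y : F, x ≠ 0 → y ≠ 0 → (∀ s ∈ K, x ≠ s * y) → (∀ s ∈ K, y ≠ s * x) →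
      φ (x + y) = φ x + φ y := by
    intro x y hx hy hxy hyx
    obtain ⟨b, hb, e1⟩ := key x y hx hy hxy hyx
    obtain ⟨a, ha, e2⟩ := key y x hy hx hyx hxy
    rw [add_comm y x, e1] at e2
    have e3 : (1 - a) * φ x = (1 - b) * φ y := by linear_combination e2
    have : b = 1 := by
      by_contra hb1
      have hb1' : (1 : F) - b ≠ 0 := fun h => hb1 (by linear_combination -h)
      apply ind y x hyx ((1 - b)⁻¹ * (1 - a))
        (K.mul_mem (K.inv_mem (K.sub_mem K.one_mem hb)) (K.sub_mem K.one_mem ha))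
      field_simp
      linear_combination -e3
    rw [e1, this, one_mul]
  -- symmetric version of independence
  have indsym : ∀ x y : F, x ≠ 0 → y ≠ 0 → (∀ s ∈ K, x ≠ s * y) → (∀ s ∈ K, y ≠ s * x) := by
    intro x y hx hy h s hs he
    have hs0 : s ≠ 0 := by
      rintro rfl
      exact hy (by simpa using he)
    apply h s⁻¹ (K.inv_mem hs)
    rw [he]
    field_simp
  intro x y
  by_cases hx : x = 0
  · simp [hx, h0]
  by_cases hy : y = 0
  · simp [hy, h0]
  by_cases hxy : ∀ s ∈ K, x ≠ s * y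
  · exact add_ind x y hx hy hxy (indsym x y hx hy hxy)
  push Not at hxy
  obtain ⟨s, hs, hxs⟩ := hxy
  have hs0 : s ≠ 0 := by
    rintro rfl
    exact hx (by simpa using hxs)
  -- z = t * y
  have ht0 : t ≠ 0 := by
    rintro rfl
    exact ht K.zero_mem
  have hz : ∀ u ∈ K, t * y ≠ u * y := by
    intro u hu h
    apply ht
    rw [mul_right_cancel₀ hy h]
    exact hu
  have hz0 : t * y ≠ 0 := mul_ne_zero ht0 hy
  have e1 : φ (y + t * y) = φ y + φ (t * y) :=
    add_ind _ _ hy hz0 (indsym _ _ hz0 hy hz) hz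
  have hyz0 : y + t * y ≠ 0 := by
    intro h
    apply hz (-1) (K.neg_mem K.one_mem)
    linear_combination h
  have e2 : φ (x + (y + t * y)) = φ x + φ (y + t * y) := by
    have h1 : ∀ u ∈ K, (y + t * y) ≠ u * x := by
      intro u hu h
      rw [hxs] at h
      apply hz (u * s - 1) (K.sub_mem (K.mul_mem hu hs) K.one_mem)
      linear_combination h
    exact add_ind _ _ hx hyz0 (indsym _ _ hyz0 hx h1) h1
  by_cases hxy0 : x + y = 0
  · have : x + (y + t * y) = t * y := by rw [← add_assoc, hxy0, zero_add]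
    rw [this, e1] at e2
    rw [hxy0, h0]
    linear_combination e2
  · have e3 : φ ((x + y) + t * y) = φ (x + y) + φ (t * y) := by
      have h1 : ∀ u ∈ K, t * y ≠ u * (x + y) := by
        intro u hu h
        apply hz (u * (s + 1)) (K.mul_mem hu (K.add_mem hs K.one_mem))
        rw [h, hxs]
        ring
      exact add_ind _ _ hxy0 hz0 (indsym _ _ hz0 hxy0 h1) h1
    rw [add_assoc, e2, e1] at e3
    linear_combination -e3

/-- Hua's argument: two additive bijections exchanged by inversion coincide with a ring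
automorphism when every element is a square. -/
theorem mul_of_inv {F : Type*} [Field F] [IsAlgClosed F] (f g : F → F)
    (hf : ∀ x y, f (x + y) = f x + f y) (hg : ∀ x y, g (x + y) = g x + g y)
    (hf0 : ∀ x, f x = 0 → x = 0) (hg0 : ∀ x, g x = 0 → x = 0) (hg1 : g 1 = 1)
    (hfg : ∀ x, x ≠ 0 → f x⁻¹ = (g x)⁻¹) (hgf : ∀ x, x ≠ 0 → g x⁻¹ = (f x)⁻¹) :
    ∀ x y, g (x * y) = g x * g y := by
  have gz : g 0 = 0 := by have := hg 0 0; simpa using this
  have fz : f 0 = 0 := by have := hf 0 0; simpa using this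
  have gsub : ∀ x y, g (x - y) = g x - g y := by
    intro x y
    have := hg (x - y) y
    rw [sub_add_cancel] at this
    linear_combination -this
  -- main identity
  have key : ∀ a b, g (a * a * b) = g a * g a * f b := by
    intro a b
    by_cases ha : a = 0
    · simp [ha, gz]
    by_cases hb : b = 0
    · simp [hb, gz, fz]
    by_cases hab : b⁻¹ - a = 0
    · -- b = a⁻¹
      have hb' : b = a⁻¹ := by
        have : b⁻¹ = a := by linear_combination hab
        rw [← this, inv_inv]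
      subst hb'
      have h1 : a * a * a⁻¹ = a := by field_simp
      rw [h1, hfg a ha]
      have : g a ≠ 0 := fun h => ha (hg0 a h)
      field_simp
    · have hga : g a ≠ 0 := fun h => ha (hg0 a h)
      have hfb : f b ≠ 0 := fun h => hb (hf0 b h)
      have hgab : g (b⁻¹ - a) ≠ 0 := fun h => hab (hg0 _ h)
      have e0 : g (b⁻¹ - a) = (f b)⁻¹ - g a := by rw [gsub, hgf b hb]
      have hne : (f b)⁻¹ - g a ≠ 0 := by rw [← e0]; exact hgab
      have hu : a⁻¹ + (b⁻¹ - a)⁻¹ ≠ 0 := by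
        intro h
        have h2 : a⁻¹ * (b⁻¹ - a) + 1 = 0 := by
          have := congrArg (· * (b⁻¹ - a)) h
          simpa [add_mul, inv_mul_cancel₀ hab] using this
        have h3 : a⁻¹ * b⁻¹ = 0 := by
          have : a⁻¹ * a = 1 := inv_mul_cancel₀ ha
          linear_combination h2 + this
        simp [ha, hb] at h3
      have e1 : f (a⁻¹ + (b⁻¹ - a)⁻¹) = (g a)⁻¹ + ((f b)⁻¹ - g a)⁻¹ := by
        rw [hf, hfg a ha, hfg _ hab, e0]
      have e2 : g (a⁻¹ + (b⁻¹ - a)⁻¹)⁻¹ = ((g a)⁻¹ + ((f b)⁻¹ - g a)⁻¹)⁻¹ := by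
        rw [hgf _ hu, e1]
      have h1ab : 1 - b * a ≠ 0 := by
        intro h
        apply hab
        have : b⁻¹ * (1 - b * a) = b⁻¹ - a := by field_simp
        rw [← this, h, mul_zero]
      have e3 : (a⁻¹ + (b⁻¹ - a)⁻¹)⁻¹ = a - a * a * b := by
        have h4 : b⁻¹ - a = (1 - b * a) / b := by field_simp
        have h5 : 1 - a * b ≠ 0 := by rwa [mul_comm a b]
        rw [h4]
        have : a⁻¹ + ((1 - b * a) / b)⁻¹ = 1 / (a * (1 - b * a)) := by
          field_simp
          ring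
        rw [this]
        field_simp
      have h1ab' : 1 - f b * g a ≠ 0 := by
        intro h
        apply hne
        have : (f b)⁻¹ * (1 - f b * g a) = (f b)⁻¹ - g a := by field_simp
        rw [← this, h, mul_zero]
      have e4 : ((g a)⁻¹ + ((f b)⁻¹ - g a)⁻¹)⁻¹ = g a - g a * g a * f b := by
        have h4 : (f b)⁻¹ - g a = (1 - f b * g a) / f b := by field_simp
        have h5 : 1 - g a * f b ≠ 0 := by rwa [mul_comm (g a) (f b)]
        rw [h4]
        have : (g a)⁻¹ + ((1 - f b * g a) / f b)⁻¹ = 1 / (g a * (1 - f b * g a)) := by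
          field_simp
          ring
        rw [this]
        field_simp
      rw [e3, e4, gsub] at e2
      linear_combination -e2
  have hgf' : ∀ b, g b = f b := by
    intro b
    have := key 1 b
    simpa [hg1] using this
  intro x y
  obtain ⟨a, rfl⟩ := IsAlgClosed.exists_pow_nat_eq x (n := 2) (by norm_num)
  have h1 := key a y
  have h2 := key a 1
  rw [mul_one, ← hgf' 1, hg1, mul_one] at h2
  rw [pow_two, h1, h2, hgf' y]

end Pool.Agent.H37PG
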