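import Mathlib

/-!
# Automorphisms of an algebraically closed field moving a transcendental element
-/

set_option autoImplicit false

namespace Pool.Agent.H37PG

open Cardinal

/-- Over a base field `k`, any two transcendental elements of an algebraically closed field `F`
are exchanged by an automorphism of `F` fixing `k` pointwise. -/
theorem exists_aut {k F : Type*} [Field k] [Field F] [Algebra k F] [IsAlgClosed F] {x y : F}
    (hx : Transcendental k x) (hy : Transcendental k y) :
    ∃ σ : F ≃+* F, (∀ c : k, σ (algebraMap k F c) = algebraMap k F c) ∧ σ x = y := by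
  classical
  have hxi : AlgebraicIndepOn k id ({x} : Set F) := by
    have := (algebraicIndependent_unique_type_iff (R := k) (ι := ({x} : Set F))
      (x := fun i : ({x} : Set F) => (i : F))).2 (by simpa using hx)
    simpa [AlgebraicIndepOn] using this
  have hyi : AlgebraicIndepOn k id ({y} : Set F) := by
    have := (algebraicIndependent_unique_type_iff (R := k) (ι := ({y} : Set F))
      (x := fun i : ({y} : Set F) => (i : F))).2 (by simpa using hy)
    simpa [AlgebraicIndepOn] using this
  obtain ⟨s, hs, hsb⟩ := exists_isTranscendenceBasis_superset hxi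
  obtain ⟨t, ht, htb⟩ := exists_isTranscendenceBasis_superset hyi
  have hc : #s = #t := by rw [hsb.cardinalMk_eq_trdeg, htb.cardinalMk_eq_trdeg]
  obtain ⟨e⟩ := Cardinal.eq.1 hc
  have hxs : x ∈ s := hs rfl
  have hyt : y ∈ t := ht rfl
  let e' : s ≃ t := e.trans (Equiv.swap (e ⟨x, hxs⟩) ⟨y, hyt⟩)
  have he' : e' ⟨x, hxs⟩ = ⟨y, hyt⟩ := by simp [e']
  let _ := IsAlgClosed.isAlgClosure_of_transcendence_basis _ hsb
  let _ := IsAlgClosed.isAlgClosure_of_transcendence_basis _ htb
  let E : Algebra.adjoin k (Set.range ((↑) : s → F)) ≃ₐ[k]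
      Algebra.adjoin k (Set.range ((↑) : t → F)) :=
    hsb.1.aevalEquiv.symm.trans ((MvPolynomial.renameEquiv k e').trans htb.1.aevalEquiv)
  refine ⟨IsAlgClosure.equivOfEquiv F F E.toRingEquiv, fun c => ?_, ?_⟩
  · have h1 := IsAlgClosure.equivOfEquiv_algebraMap F F E.toRingEquiv
      (algebraMap k (Algebra.adjoin k (Set.range ((↑) : s → F))) c)
    have h2 : E.toRingEquiv (algebraMap k (Algebra.adjoin k (Set.range ((↑) : s → F))) c)
        = algebraMap k _ c := E.commutes c
    rw [h2] at h1
    exact h1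
  · have hmem : x ∈ Algebra.adjoin k (Set.range ((↑) : s → F)) :=
      Algebra.subset_adjoin ⟨⟨x, hxs⟩, rfl⟩
    have h1 := IsAlgClosure.equivOfEquiv_algebraMap F F E.toRingEquiv ⟨x, hmem⟩
    have h3 : hsb.1.aevalEquiv (MvPolynomial.X ⟨x, hxs⟩) = ⟨x, hmem⟩ := by
      apply Subtype.ext
      simp
    have h2 : E.toRingEquiv ⟨x, hmem⟩ = htb.1.aevalEquiv (MvPolynomial.X ⟨y, hyt⟩) := by
      change htb.1.aevalEquiv (MvPolynomial.renameEquiv k e' (hsb.1.aevalEquiv.symm ⟨x, hmem⟩)) = _
      rw [← h3, AlgEquiv.symm_apply_apply]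
      simp [he']
    rw [h2] at h1
    refine Eq.trans h1 ?_
    change ((htb.1.aevalEquiv (MvPolynomial.X ⟨y, hyt⟩) :
      Algebra.adjoin k (Set.range ((↑) : t → F))) : F) = y
    simp

end Pool.Agent.H37PG
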