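import Mathlib
import Pool.Agent.H37PG.Gal
import Pool.Agent.H37PG.Alg

/-!
# Permutations of the projective line `Option F`
-/

set_option autoImplicit false

namespace Pool.Agent.H37PG

open Equiv

theorem app_inv {X : Type*} (g : Perm X) (x : X) : g (g⁻¹ x) = x := Equiv.apply_symm_apply g x
theorem inv_app {X : Type*} (g : Perm X) (x : X) : g⁻¹ (g x) = x := Equiv.symm_apply_apply g x

/-! ## Jordan complements -/

section J

variable {X : Type*} (G : Subgroup (Perm X))

/-- `A` is a Jordan complement for `G`: the pointwise stabiliser of `A` in `G` is transitive on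
the complement of `A`. -/
def Jn (A : Set X) : Prop :=
  ∀ x y, x ∉ A → y ∉ A → ∃ g ∈ G, (∀ a ∈ A, g a = a) ∧ g x = y

variable {G}

theorem Jn.image {A : Set X} (h : Jn G A) {g : Perm X} (hg : g ∈ G) : Jn G (g '' A) := by
  intro x y hx hy
  have hx' : g⁻¹ x ∉ A := fun h => hx ⟨_, h, by simp⟩
  have hy' : g⁻¹ y ∉ A := fun h => hy ⟨_, h, by simp⟩
  obtain ⟨u, hu, hfix, hxy⟩ := h _ _ hx' hy'
  refine ⟨g * u * g⁻¹, G.mul_mem (G.mul_mem hg hu) (G.inv_mem hg), ?_, ?_⟩
  · rintro _ ⟨a, ha, rfl⟩
    simp [Perm.mul_apply, hfix a ha]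
  · rw [Perm.mul_apply, Perm.mul_apply, hxy, app_inv]

theorem Jn.sInter {S : Set (Set X)} (hJ : ∀ B ∈ S, Jn G B) (z : X) (hz : ∀ B ∈ S, z ∉ B) :
    Jn G (⋂₀ S) := by
  have key : ∀ x, x ∉ ⋂₀ S → ∃ g ∈ G, (∀ a ∈ ⋂₀ S, g a = a) ∧ g x = z := by
    intro x hx
    simp only [Set.mem_sInter, not_forall] at hx
    obtain ⟨B, hB, hxB⟩ := hx
    obtain ⟨g, hg, hfix, hgx⟩ := hJ B hB x z hxB (hz B hB)
    exact ⟨g, hg, fun a ha => hfix a (ha B hB), hgx⟩
  intro x y hx hy
  obtain ⟨g, hg, hgf, hgx⟩ := key x hx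
  obtain ⟨u, hu, huf, huy⟩ := key y hy
  refine ⟨u⁻¹ * g, G.mul_mem (G.inv_mem hu) hg, ?_, ?_⟩
  · intro a ha
    rw [Perm.mul_apply, hgf a ha, Perm.inv_eq_iff_eq, huf a ha]
  · rw [Perm.mul_apply, hgx, Perm.inv_eq_iff_eq, huy]

theorem Jn.mono_fix {A : Set X} (h : Jn G A) {P : Set X} (hP : P ⊆ A) (x y : X) (hx : x ∉ A)
    (hy : y ∉ A) : ∃ g ∈ G, (∀ a ∈ P, g a = a) ∧ g x = y := by
  obtain ⟨g, hg, hf, he⟩ := h x y hx hy
  exact ⟨g, hg, fun a ha => hf a (hP ha), he⟩

end J

section Line

variable {F : Type*} [Field F]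

/-- `z ↦ a z + b` on the projective line. -/
def aff (a b : F) (ha : a ≠ 0) : Perm (Option F) :=
  Equiv.optionCongr
    { toFun := fun z => a * z + b
      invFun := fun z => a⁻¹ * (z - b)
      left_inv := fun z => by field_simp; ring
      right_inv := fun z => by field_simp; ring }

@[simp] theorem aff_none (a b : F) (ha : a ≠ 0) : aff a b ha none = none := rfl
@[simp] theorem aff_some (a b : F) (ha : a ≠ 0) (z : F) :
    aff a b ha (some z) = some (a * z + b) := rfl
theorem aff_inv_some (a b : F) (ha : a ≠ 0) (z : F) :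
    (aff a b ha)⁻¹ (some z) = some (a⁻¹ * (z - b)) := rfl
theorem aff_inv_none (a b : F) (ha : a ≠ 0) :
    (aff a b ha)⁻¹ none = none := rfl

/-- a field automorphism, on the projective line. -/
def gal (σ : F ≃+* F) : Perm (Option F) := Equiv.optionCongr σ.toEquiv

@[simp] theorem gal_none (σ : F ≃+* F) : gal σ none = none := rfl
@[simp] theorem gal_some (σ : F ≃+* F) (z : F) : gal σ (some z) = some (σ z) := rfl

open Classical in
/-- the map underlying the inversion. -/
noncomputable def invFun : Option F → Option F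
  | none => some 0
  | some z => if z = 0 then none else some z⁻¹

theorem invFun_invol : Function.Involutive (invFun (F := F)) := by
  intro p
  cases p with
  | none => simp [invFun]
  | some z =>
    by_cases hz : z = 0
    · simp [invFun, hz]
    · simp [invFun, hz]

/-- `z ↦ 1/z` on the projective line. -/
noncomputable def iv : Perm (Option F) := invFun_invol.toPerm

@[simp] theorem iv_none : (iv : Perm (Option F)) none = some 0 := rfl
@[simp] theorem iv_zero : (iv : Perm (Option F)) (some 0) = none := by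
  simp [iv, invFun]
theorem iv_some {z : F} (hz : z ≠ 0) : (iv : Perm (Option F)) (some z) = some z⁻¹ := by
  simp [iv, invFun, hz]
@[simp] theorem iv_one : (iv : Perm (Option F)) (some 1) = some 1 := by
  rw [iv_some one_ne_zero, inv_one]
@[simp] theorem iv_iv (p : Option F) : (iv : Perm (Option F)) (iv p) = p := invFun_invol p

/-- The submonoid generated by the affine maps, the inversion and the automorphisms. -/
def Gam (F : Type*) [Field F] : Submonoid (Perm (Option F)) :=
  Submonoid.closure ({g | ∃ (a b : F) (ha : a ≠ 0), g = aff a b ha} ∪ {iv} ∪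
    {g | ∃ σ : F ≃+* F, g = gal σ})

theorem aff_mem (a b : F) (ha : a ≠ 0) : aff a b ha ∈ Gam F :=
  Submonoid.subset_closure (Or.inl (Or.inl ⟨a, b, ha, rfl⟩))

theorem iv_mem : (iv : Perm (Option F)) ∈ Gam F :=
  Submonoid.subset_closure (Or.inl (Or.inr rfl))

theorem gal_mem (σ : F ≃+* F) : gal σ ∈ Gam F :=
  Submonoid.subset_closure (Or.inr ⟨σ, rfl⟩)

/-- 3-transitivity of `Gam`. -/
theorem three_trans (p q r : Option F) (hpq : p ≠ q) (hpr : p ≠ r) (hqr : q ≠ r) :
    ∃ δ ∈ Gam F, δ none = p ∧ δ (some 0) = q ∧ δ (some 1) = r := by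
  -- first case
  have base : ∀ q r : Option F, none ≠ q → none ≠ r → q ≠ r →
      ∃ δ ∈ Gam F, δ none = none ∧ δ (some 0) = q ∧ δ (some 1) = r := by
    intro q r hq hr hqr
    cases q with
    | none => exact absurd rfl hq
    | some b =>
      cases r with
      | none => exact absurd rfl hr
      | some c =>
        have hbc : c - b ≠ 0 := by
          intro h
          apply hqr
          rw [sub_eq_zero.1 h]
        exact ⟨aff (c - b) b hbc, aff_mem _ _ _, rfl, by simp, by simp⟩
  cases p with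
  | none => exact base q r hpq hpr hqr
  | some a =>
    let θ : Perm (Option F) := iv * aff 1 (-a) one_ne_zero
    have hθ : θ (some a) = none := by simp [θ]
    obtain ⟨δ, hδ, h1, h2, h3⟩ := base (θ q) (θ r)
      (by rw [← hθ]; exact fun h => hpq (θ.injective h))
      (by rw [← hθ]; exact fun h => hpr (θ.injective h))
      (fun h => hqr (θ.injective h))
    let θ' : Perm (Option F) := aff 1 a one_ne_zero * iv
    have hθθ : ∀ p, θ' (θ p) = p := by
      intro p
      simp only [θ, θ', Perm.mul_apply, iv_iv]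
      cases p <;> simp
    refine ⟨θ' * δ, mul_mem (mul_mem (aff_mem _ _ _) iv_mem) hδ, ?_, ?_, ?_⟩
    · rw [Perm.mul_apply, h1, ← hθ, hθθ]
    · rw [Perm.mul_apply, h2, hθθ]
    · rw [Perm.mul_apply, h3, hθθ]

/-! ## The closed chain -/

variable (F) in
/-- The elements algebraic over the prime field. -/
abbrev KK : IntermediateField (⊥ : Subfield F) F := algebraicClosure (⊥ : Subfield F) F

variable (F) in
/-- The projective line over the algebraic closure of the prime field. -/
def AA : Set (Option F) := {p | ∀ z, p = some z → z ∈ KK F}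

theorem none_mem_AA : (none : Option F) ∈ AA F := by intro z hz; cases hz
theorem some_mem_AA (z : F) : some z ∈ AA F ↔ z ∈ KK F := by
  constructor
  · intro h; exact h z rfl
  · intro h w hw; cases hw; exact h

theorem transc_of_not_mem {z : F} (hz : z ∉ KK F) : Transcendental (KK F) z := by
  intro h
  apply hz
  rw [mem_algebraicClosure_iff]
  exact h.restrictScalars (⊥ : Subfield F)

theorem Jn_AA [IsAlgClosed F] (G : Subgroup (Perm (Option F))) (hG : ∀ g ∈ Gam F, g ∈ G) :
    Jn G (AA F) := by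
  intro x y hx hy
  cases x with
  | none => exact absurd none_mem_AA hx
  | some u =>
    cases y with
    | none => exact absurd none_mem_AA hy
    | some v =>
      rw [some_mem_AA] at hx hy
      obtain ⟨σ, hσ, hxy⟩ := exists_aut (transc_of_not_mem hx) (transc_of_not_mem hy)
      refine ⟨gal σ, hG _ (gal_mem σ), ?_, ?_⟩
      · intro a ha
        cases a with
        | none => rfl
        | some z =>
          rw [some_mem_AA] at ha
          rw [gal_some]
          exact congrArg some (hσ ⟨z, ha⟩)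
      · rw [gal_some, hxy]

/-- maps of `Gam` sending two points of `AA` to `∞, 0` and preserving `AA`. -/
theorem exists_to_zero (p q : Option F) (hp : p ∈ AA F) (hq : q ∈ AA F) (hpq : p ≠ q) :
    ∃ γ ∈ Gam F, γ p = none ∧ γ q = some 0 ∧ ∀ r ∈ AA F, γ r ∈ AA F := by
  have affA : ∀ b ∈ KK F, ∀ r ∈ AA F, aff 1 b one_ne_zero r ∈ AA F := by
    intro b hb r hr
    cases r with
    | none => exact none_mem_AA
    | some z =>
      rw [some_mem_AA] at hr
      rw [aff_some, some_mem_AA, one_mul]
      exact add_mem hr hb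
  have ivA : ∀ r ∈ AA F, iv r ∈ AA F := by
    intro r hr
    cases r with
    | none => rw [iv_none, some_mem_AA]; exact zero_mem _
    | some z =>
      rw [some_mem_AA] at hr
      by_cases hz : z = 0
      · subst hz; rw [iv_zero]; exact none_mem_AA
      · rw [iv_some hz, some_mem_AA]; exact inv_mem hr
  have base : ∀ q : Option F, q ∈ AA F → none ≠ q →
      ∃ γ ∈ Gam F, γ none = none ∧ γ q = some 0 ∧ ∀ r ∈ AA F, γ r ∈ AA F := by
    intro q hq hne
    cases q with
    | none => exact absurd rfl hne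
    | some b =>
      rw [some_mem_AA] at hq
      refine ⟨aff 1 (-b) one_ne_zero, aff_mem _ _ _, rfl, by simp, affA _ (neg_mem hq)⟩
  cases p with
  | none => exact base q hq hpq
  | some a =>
    rw [some_mem_AA] at hp
    let θ : Perm (Option F) := iv * aff 1 (-a) one_ne_zero
    have hθ : θ (some a) = none := by simp [θ]
    have hθA : ∀ r ∈ AA F, θ r ∈ AA F := fun r hr => ivA _ (affA _ (neg_mem hp) r hr)
    obtain ⟨γ, hγ, h1, h2, h3⟩ := base (θ q) (hθA q hq)
      (by rw [← hθ]; exact fun h => hpq (θ.injective h))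
    refine ⟨γ * θ, mul_mem hγ (mul_mem iv_mem (aff_mem _ _ _)), ?_, ?_, ?_⟩
    · rw [Perm.mul_apply, hθ, h1]
    · rw [Perm.mul_apply, h2]
    · intro r hr
      exact h3 _ (hθA r hr)

/-- Scaling `AA` so that it avoids a finite set not containing `0` and `∞`. -/
theorem exists_scale (t : F) (ht : t ∉ KK F) (P : Set (Option F)) (hP : P.Finite)
    (hn : none ∉ P) (h0 : some 0 ∉ P) :
    ∃ (c : F) (hc : c ≠ 0), ∀ r ∈ AA F, aff c 0 hc r ∉ P := by
  have ht0 : t ≠ 0 := by rintro rfl; exact ht (zero_mem _)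
  -- bad exponents
  have hbad : ∀ p ∈ P, {n : ℕ | ∃ r ∈ AA F, aff (t ^ n) 0 (pow_ne_zero n ht0) r = p}.Finite := by
    intro p hp
    apply Set.Subsingleton.finite
    have aux : ∀ n m : ℕ, n < m → (∃ r ∈ AA F, aff (t ^ n) 0 (pow_ne_zero n ht0) r = p) →
        (∃ r ∈ AA F, aff (t ^ m) 0 (pow_ne_zero m ht0) r = p) → False := by
      rintro n m hnm ⟨r, hr, hrp⟩ ⟨s, hs, hsp⟩
      cases r with
      | none => rw [aff_none] at hrp; exact hn (hrp ▸ hp)
      | some α =>
        cases s with
        | none => rw [aff_none] at hsp; exact hn (hsp ▸ hp)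
        | some β =>
          rw [some_mem_AA] at hr hs
          rw [aff_some, add_zero] at hrp hsp
          have hα0 : α ≠ 0 := by
            rintro rfl
            rw [mul_zero] at hrp
            exact h0 (hrp ▸ hp)
          have hβ0 : β ≠ 0 := by
            rintro rfl
            rw [mul_zero] at hsp
            exact h0 (hsp ▸ hp)
          have he : t ^ n * α = t ^ m * β := by
            have := hrp.trans hsp.symm
            exact Option.some_injective _ this
          obtain ⟨d, rfl⟩ := Nat.exists_eq_add_of_lt hnm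
          have he2 : t ^ (d + 1) = α / β := by
            rw [eq_div_iff hβ0]
            have h3 : t ^ n * (t ^ (d + 1) * β) = t ^ n * α := by
              rw [he]; ring
            exact mul_left_cancel₀ (pow_ne_zero n ht0) h3
          apply ht
          rw [mem_algebraicClosure_iff]
          apply IsAlgebraic.of_pow (n := d + 1) (Nat.succ_pos d)
          rw [he2, ← mem_algebraicClosure_iff]
          exact div_mem hr hs
    intro n hn' m hm'
    rcases lt_trichotomy n m with h | h | h
    · exact (aux n m h hn' hm').elim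
    · exact h
    · exact (aux m n h hm' hn').elim
  have hfin : (⋃ p ∈ P, {n : ℕ | ∃ r ∈ AA F, aff (t ^ n) 0 (pow_ne_zero n ht0) r = p}).Finite :=
    hP.biUnion hbad
  obtain ⟨n, hn'⟩ := hfin.exists_notMem
  refine ⟨t ^ n, pow_ne_zero n ht0, fun r hr hrP => hn' ?_⟩
  simp only [Set.mem_iUnion, exists_prop]
  exact ⟨_, hrP, r, hr, rfl⟩

/-- Case 1: if some translate of `AA` covers the complement of `AA`, every finite set is a
Jordan complement. -/
theorem case1 [IsAlgClosed F] (G : Subgroup (Perm (Option F))) (hG : ∀ g ∈ Gam F, g ∈ G)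
    (t : F) (ht : t ∉ KK F) (g : Perm (Option F)) (hg : g ∈ G)
    (hcov : ∀ x, x ∈ AA F ∨ x ∈ g '' AA F) (P : Set (Option F)) (hP : P.Finite) : Jn G P := by
  intro x y hx hy
  by_cases hxy : x = y
  · subst hxy
    exact ⟨1, G.one_mem, fun _ _ => rfl, rfl⟩
  have ht1 : some t ∉ AA F := by rwa [some_mem_AA]
  have ht2 : some (t + 1) ∉ AA F := by
    rw [some_mem_AA]
    intro h
    apply ht
    have := sub_mem h (one_mem (KK F))
    rwa [add_sub_cancel_right] at this
  have hne : some t ≠ some (t + 1) := by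
    intro h
    have := Option.some_injective _ h
    apply one_ne_zero (α := F)
    linear_combination -this
  have hu1 : g (some t) ∉ g '' AA F := by
    rintro ⟨a, ha, hga⟩
    exact ht1 (g.injective hga ▸ ha)
  have hu2 : g (some (t + 1)) ∉ g '' AA F := by
    rintro ⟨a, ha, hga⟩
    exact ht2 (g.injective hga ▸ ha)
  have hu1A : g (some t) ∈ AA F := (hcov _).resolve_right hu1
  have hu2A : g (some (t + 1)) ∈ AA F := (hcov _).resolve_right hu2
  have hu12 : g (some t) ≠ g (some (t + 1)) := fun h => hne (g.injective h)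
  obtain ⟨γ, hγ, hγ1, hγ2, hγA⟩ := exists_to_zero _ _ hu1A hu2A hu12
  -- β : ∞ ↦ x, 0 ↦ y
  obtain ⟨z, hzx, hzy⟩ : ∃ z : Option F, z ≠ x ∧ z ≠ y := by
    by_contra hcon
    push Not at hcon
    have h1 : ∀ z : Option F, z = x ∨ z = y := by
      intro z
      by_cases hz : z = x
      · exact Or.inl hz
      · exact Or.inr (hcon z hz)
    have := h1 none
    have := h1 (some 0)
    have := h1 (some 1)
    have a1 : (none : Option F) ≠ some 0 := by simp
    have a2 : (none : Option F) ≠ some 1 := by simp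
    have a3 : (some 0 : Option F) ≠ some 1 := by simp
    rcases h1 none with h | h <;> rcases h1 (some 0) with h' | h' <;>
      rcases h1 (some 1) with h'' | h'' <;> simp_all
  obtain ⟨β, hβ, hβ1, hβ2, -⟩ := three_trans x y z hxy (Ne.symm hzx) (Ne.symm hzy)
  obtain ⟨c, hc, hcA⟩ := exists_scale t ht (β ⁻¹' P) (hP.preimage β.injective.injOn)
    (by rw [Set.mem_preimage, hβ1]; exact hx) (by rw [Set.mem_preimage, hβ2]; exact hy)
  let δ : Perm (Option F) := β * (aff c 0 hc * γ)
  have hδ : δ ∈ G := hG _ (mul_mem hβ (mul_mem (aff_mem _ _ _) hγ))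
  have hδ1 : δ (g (some t)) = x := by
    simp [δ, Perm.mul_apply, hγ1, hβ1]
  have hδ2 : δ (g (some (t + 1))) = y := by
    simp [δ, Perm.mul_apply, hγ2, hβ2]
  have hJ : Jn G ((δ * g) '' AA F) := (Jn_AA G hG).image (G.mul_mem hδ hg)
  have hsub : P ⊆ (δ * g) '' AA F := by
    intro p hp
    by_contra hpn
    -- p = δ u with u ∉ g AA, so u ∈ AA
    have hu : δ⁻¹ p ∉ g '' AA F := by
      rintro ⟨a, ha, hga⟩
      apply hpn
      refine ⟨a, ha, ?_⟩
      rw [Perm.mul_apply, hga, app_inv]
    have huA : δ⁻¹ p ∈ AA F := (hcov _).resolve_right hu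
    apply hcA (γ (δ⁻¹ p)) (hγA _ huA)
    rw [Set.mem_preimage]
    have : β (aff c 0 hc (γ (δ⁻¹ p))) = δ (δ⁻¹ p) := rfl
    rw [this, app_inv]
    exact hp
  refine hJ.mono_fix hsub x y ?_ ?_
  · rintro ⟨a, ha, hga⟩
    rw [Perm.mul_apply, ← hδ1] at hga
    exact hu1 ⟨a, ha, δ.injective hga⟩
  · rintro ⟨a, ha, hga⟩
    rw [Perm.mul_apply, ← hδ2] at hga
    exact hu2 ⟨a, ha, δ.injective hga⟩

end Line

end Pool.Agent.H37PG
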