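import Mathlib
import Pool.Agent.H37PG.Perm

/-!
# Subgroups strictly above the semilinear group are 4-transitive
-/

set_option autoImplicit false

namespace Pool.Agent.H37PG

open Equiv

section Main

variable {F : Type*} [Field F]

/-- the closure property of the set `C` used below. -/
def Clo (G : Subgroup (Perm (Option F))) (C : Set (Option F)) : Prop :=
  none ∈ C ∧ some 0 ∈ C ∧ some 1 ∈ C ∧
  ∀ g ∈ G, g none ∈ C → g (some 0) ∈ C → g (some 1) ∈ C → ∀ x ∈ C, g x ∈ C

/-- Case 2, existence of `C`. -/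
theorem case2 [IsAlgClosed F] (G : Subgroup (Perm (Option F))) (hG : ∀ g ∈ Gam F, g ∈ G)
    (t : F) (ht : t ∉ KK F) (hcov : ∀ g ∈ G, ∃ x, x ∉ AA F ∧ x ∉ g '' AA F) :
    ∃ C : Set (Option F), Jn G C ∧ C ⊆ AA F ∧ Clo G C := by
  let S : Set (Set (Option F)) := {B | Jn G B ∧ none ∈ B ∧ some 0 ∈ B ∧ some 1 ∈ B ∧ B ⊆ AA F}
  have hAS : AA F ∈ S :=
    ⟨Jn_AA G hG, none_mem_AA, (some_mem_AA 0).2 (zero_mem _), (some_mem_AA 1).2 (one_mem _),
      fun x hx => hx⟩
  have hCA : ⋂₀ S ⊆ AA F := fun x hx => hx _ hAS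
  have hCJ : Jn G (⋂₀ S) := by
    apply Jn.sInter (fun B hB => hB.1) (some t)
    intro B hB h
    exact ht ((some_mem_AA t).1 (hB.2.2.2.2 h))
  refine ⟨⋂₀ S, hCJ, hCA, fun B hB => hB.2.1, fun B hB => hB.2.2.1, fun B hB => hB.2.2.2.1, ?_⟩
  intro g hg h1 h2 h3 x hx
  -- C ∩ g⁻¹ C
  have hJ2 : Jn G (⋂₀ {⋂₀ S, (g⁻¹ : Perm (Option F)) '' (⋂₀ S)}) := by
    obtain ⟨z, hz1, hz2⟩ := hcov g⁻¹ (G.inv_mem hg)
    apply Jn.sInter _ z
    · intro B hB
      rcases hB with rfl | hB
      · exact fun h => hz1 (hCA h)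
      · rw [Set.mem_singleton_iff] at hB
        subst hB
        rintro ⟨a, ha, rfl⟩
        exact hz2 ⟨a, hCA ha, rfl⟩
    · intro B hB
      rcases hB with rfl | hB
      · exact hCJ
      · rw [Set.mem_singleton_iff] at hB
        subst hB
        exact hCJ.image (G.inv_mem hg)
  have hmem : ∀ p, p ∈ ⋂₀ S → g p ∈ ⋂₀ S →
      p ∈ ⋂₀ {⋂₀ S, (g⁻¹ : Perm (Option F)) '' (⋂₀ S)} := by
    intro p hp hgp B hB
    rcases hB with rfl | hB
    · exact hp
    · rw [Set.mem_singleton_iff] at hB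
      subst hB
      exact ⟨g p, hgp, inv_app g p⟩
  have hS : ⋂₀ {⋂₀ S, (g⁻¹ : Perm (Option F)) '' (⋂₀ S)} ∈ S := by
    refine ⟨hJ2, hmem _ (fun B hB => hB.2.1) h1, hmem _ (fun B hB => hB.2.2.1) h2,
      hmem _ (fun B hB => hB.2.2.2.1) h3, ?_⟩
    intro p hp
    exact hCA (hp _ (Or.inl rfl))
  have hx2 := hx _ hS _ (Or.inr rfl)
  obtain ⟨a, ha, hga⟩ := hx2
  rw [← hga, app_inv]
  exact ha

/-- The subfield carried by `C`. -/
theorem exists_subfield (G : Subgroup (Perm (Option F))) (hG : ∀ g ∈ Gam F, g ∈ G)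
    (C : Set (Option F)) (hC : Clo G C) (c : F) (hc : some c ∈ C) (hc0 : c ≠ 0) (hc1 : c ≠ 1) :
    ∃ K : Subfield F, ∀ z, z ∈ K ↔ some z ∈ C := by
  obtain ⟨hn, h0, h1, hcl⟩ := hC
  have hmul : ∀ z w : F, some z ∈ C → some w ∈ C → some (z * w) ∈ C := by
    intro z w hz hw
    by_cases hz0 : z = 0
    · subst hz0; rwa [zero_mul]
    have := hcl (aff z 0 hz0) (hG _ (aff_mem _ _ _)) (by simpa using hn) (by simpa using h0)
      (by simpa using hz) _ hw
    simpa using this
  have hinv : ∀ z : F, some z ∈ C → some z⁻¹ ∈ C := by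
    intro z hz
    by_cases hz0 : z = 0
    · subst hz0; rwa [inv_zero]
    have := hcl iv (hG _ iv_mem) (by simpa using h0) (by simpa using hn)
      (by simpa using h1) _ hz
    rwa [iv_some hz0] at this
  have hone : ∀ z : F, some z ∈ C → some (1 - z) ∈ C := by
    intro z hz
    have := hcl (aff (-1) 1 (by simp)) (hG _ (aff_mem _ _ _)) (by simpa using hn)
      (by simpa using h1) (by simpa using h0) _ hz
    rw [aff_some] at this
    convert this using 2
    ring
  have hneg1 : some (-1) ∈ C := by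
    have e1 : some (1 - c⁻¹) ∈ C := hone _ (hinv _ hc)
    have e2 : some (c * (1 - c⁻¹)) ∈ C := hmul _ _ hc e1
    have hc1' : 1 - c ≠ 0 := fun h => hc1 (by linear_combination -h)
    have e3 : some ((1 - c)⁻¹ * (c * (1 - c⁻¹))) ∈ C := hmul _ _ (hinv _ (hone _ hc)) e2
    have e4 : (1 - c)⁻¹ * (c * (1 - c⁻¹)) = -1 := by
      field_simp
      ring
    rwa [e4] at e3
  have hneg : ∀ z : F, some z ∈ C → some (-z) ∈ C := by
    intro z hz
    have := hmul _ _ hneg1 hz
    rwa [neg_one_mul] at this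
  have hadd : ∀ z w : F, some z ∈ C → some w ∈ C → some (z + w) ∈ C := by
    intro z w hz hw
    by_cases hz0 : z = 0
    · subst hz0; rwa [zero_add]
    have e1 := hmul _ _ hz (hone _ (hneg _ (hmul _ _ (hinv _ hz) hw)))
    have e2 : z * (1 - -(z⁻¹ * w)) = z + w := by
      field_simp
      ring
    rwa [e2] at e1
  exact ⟨{ carrier := {z | some z ∈ C}
           mul_mem' := fun {a b} ha hb => hmul a b ha hb
           one_mem' := h1
           add_mem' := fun {a b} ha hb => hadd a b ha hb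
           zero_mem' := h0
           neg_mem' := fun {a} ha => hneg a ha
           inv_mem' := fun a ha => hinv a ha }, fun z => Iff.rfl⟩

/-- Elements of `G` fixing `∞, 0, 1` are additive. -/
theorem additive_of_fix (G : Subgroup (Perm (Option F))) (hG : ∀ g ∈ Gam F, g ∈ G)
    (C : Set (Option F)) (hC : Clo G C) (c : F) (hc : some c ∈ C) (hc0 : c ≠ 0) (hc1 : c ≠ 1)
    (t : F) (ht : some t ∉ C) (φ : F ≃ F) (hφ : Equiv.optionCongr φ ∈ G) (h0 : φ 0 = 0) :
    ∀ x y, φ (x + y) = φ x + φ y := by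
  obtain ⟨K, hK⟩ := exists_subfield G hG C hC c hc hc0 hc1
  obtain ⟨hn, hC0, hC1, hcl⟩ := hC
  have L : ∀ ψ : F ≃ F, Equiv.optionCongr ψ ∈ G → ∀ x y s : F, s ∈ K →
      ∃ s' ∈ K, ψ (x + s * (y - x)) = ψ x + s' * (ψ y - ψ x) := by
    intro ψ hψ x y s hs
    by_cases hxy : y - x = 0
    · refine ⟨0, K.zero_mem, ?_⟩
      rw [hxy, mul_zero, add_zero, zero_mul, add_zero]
    have hxy' : ψ y - ψ x ≠ 0 := by
      intro h
      apply hxy
      rw [sub_eq_zero] at h ⊢
      exact ψ.injective h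
    have hmem : (aff (ψ y - ψ x) (ψ x) hxy')⁻¹ * (Equiv.optionCongr ψ * aff (y - x) x hxy) ∈ G :=
      G.mul_mem (G.inv_mem (hG _ (aff_mem _ _ _))) (G.mul_mem hψ (hG _ (aff_mem _ _ _)))
    have hval : ∀ z : F, ((aff (ψ y - ψ x) (ψ x) hxy')⁻¹ *
        (Equiv.optionCongr ψ * aff (y - x) x hxy)) (some z) =
        some ((ψ y - ψ x)⁻¹ * (ψ ((y - x) * z + x) - ψ x)) := fun z => rfl
    have hvaln : ((aff (ψ y - ψ x) (ψ x) hxy')⁻¹ *
        (Equiv.optionCongr ψ * aff (y - x) x hxy)) none = none := rfl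
    have h := hcl _ hmem (by rw [hvaln]; exact hn)
      (by
        rw [hval, mul_zero, zero_add, sub_self, mul_zero]
        exact hC0)
      (by
        rw [hval, mul_one, sub_add_cancel, inv_mul_cancel₀ hxy']
        exact hC1) (some s) ((hK s).1 hs)
    rw [hval] at h
    refine ⟨_, (hK _).2 h, ?_⟩
    have : x + s * (y - x) = (y - x) * s + x := by ring
    rw [this]
    field_simp
    ring
  have hφ' : Equiv.optionCongr φ.symm ∈ G := by
    have : Equiv.optionCongr φ.symm = (Equiv.optionCongr φ)⁻¹ := rfl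
    rw [this]
    exact G.inv_mem hφ
  exact additive_of_lines K c ((hK c).2 hc) hc0 hc1 t (fun h => ht ((hK t).1 h)) φ h0
    (L φ hφ) (L φ.symm hφ')

omit [Field F] in
/-- a permutation fixing `none` comes from a permutation of `F`. -/
theorem exists_optionCongr (g : Perm (Option F)) (hg : g none = none) :
    ∃ φ : F ≃ F, g = Equiv.optionCongr φ := by
  refine ⟨Equiv.removeNone g, ?_⟩
  ext1 p
  cases p with
  | none => rw [hg]; rfl
  | some z =>
    have h : ∃ w, g (some z) = some w := by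
      rcases h : g (some z) with _ | w
      · exfalso
        have := g.injective (h.trans hg.symm)
        cases this
      · exact ⟨w, rfl⟩
    rw [Equiv.optionCongr_apply, Option.map_some, Equiv.removeNone_some g h]

/-- Case 2b: if `C` has a fourth point then `G` is the semilinear group. -/
theorem case2b [IsAlgClosed F] (G : Subgroup (Perm (Option F))) (hG : ∀ g ∈ Gam F, g ∈ G)
    (C : Set (Option F)) (hC : Clo G C) (c : F) (hc : some c ∈ C) (hc0 : c ≠ 0) (hc1 : c ≠ 1)
    (t : F) (ht : some t ∉ C) : ∀ g ∈ G, g ∈ Gam F := by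
  intro g hg
  obtain ⟨δ, hδ, d1, d2, d3⟩ := three_trans (g none) (g (some 0)) (g (some 1))
    (fun h => by have := g.injective h; cases this)
    (fun h => by have := g.injective h; cases this)
    (fun h => by
      have := Option.some_injective _ (g.injective h)
      exact zero_ne_one this)
  set f : Perm (Option F) := δ⁻¹ * g with hf
  have hfG : f ∈ G := G.mul_mem (G.inv_mem (hG _ hδ)) hg
  have f1 : f none = none := by rw [hf, Perm.mul_apply, ← d1, inv_app]
  have f2 : f (some 0) = some 0 := by rw [hf, Perm.mul_apply, ← d2, inv_app]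
  have f3 : f (some 1) = some 1 := by rw [hf, Perm.mul_apply, ← d3, inv_app]
  obtain ⟨φ, hφ⟩ := exists_optionCongr f f1
  -- the conjugate by the inversion
  set f' : Perm (Option F) := iv * (f * iv) with hf'
  have hfG' : f' ∈ G := G.mul_mem (hG _ iv_mem) (G.mul_mem hfG (hG _ iv_mem))
  have f1' : f' none = none := by simp [hf', Perm.mul_apply, f2]
  have f2' : f' (some 0) = some 0 := by simp [hf', Perm.mul_apply, f1]
  have f3' : f' (some 1) = some 1 := by simp [hf', Perm.mul_apply, f3]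
  obtain ⟨ψ, hψ⟩ := exists_optionCongr f' f1'
  have hφs : ∀ z, f (some z) = some (φ z) := fun z => by rw [hφ]; rfl
  have hψs : ∀ z, f' (some z) = some (ψ z) := fun z => by rw [hψ]; rfl
  have φ0 : φ 0 = 0 := Option.some_injective _ ((hφs 0).symm.trans f2)
  have φ1 : φ 1 = 1 := Option.some_injective _ ((hφs 1).symm.trans f3)
  have ψ0 : ψ 0 = 0 := Option.some_injective _ ((hψs 0).symm.trans f2')
  have ψ1 : ψ 1 = 1 := Option.some_injective _ ((hψs 1).symm.trans f3')
  have φadd := additive_of_fix G hG C hC c hc hc0 hc1 t ht φ (hφ ▸ hfG) φ0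
  have ψadd := additive_of_fix G hG C hC c hc hc0 hc1 t ht ψ (hψ ▸ hfG') ψ0
  have φz : ∀ x, φ x = 0 → x = 0 := fun x hx => φ.injective (hx.trans φ0.symm)
  have ψz : ∀ x, ψ x = 0 → x = 0 := fun x hx => ψ.injective (hx.trans ψ0.symm)
  have rel : ∀ x, x ≠ 0 → ψ x⁻¹ = (φ x)⁻¹ := by
    intro x hx
    have h1 := hψs x⁻¹
    rw [hf', Perm.mul_apply, Perm.mul_apply, iv_some (inv_ne_zero hx), inv_inv, hφs,
      iv_some (fun h => hx (φz x h))] at h1
    exact (Option.some_injective _ h1).symm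
  have rel' : ∀ x, x ≠ 0 → φ x⁻¹ = (ψ x)⁻¹ := by
    intro x hx
    have := rel x⁻¹ (inv_ne_zero hx)
    rw [inv_inv] at this
    rw [this, inv_inv]
  have φmul := mul_of_inv ψ φ ψadd φadd ψz φz φ1 rel rel'
  let σ : F ≃+* F := { φ with map_mul' := φmul, map_add' := φadd }
  have hfσ : f = gal σ := by rw [hφ]; rfl
  have : g = δ * gal σ := by rw [← hfσ, hf, mul_inv_cancel_left]
  rw [this]
  exact mul_mem hδ (gal_mem σ)

/-- Main theorem on `Option F`. -/
theorem main_option [IsAlgClosed F] (hF : ¬ Algebra.IsAlgebraic (⊥ : Subfield F) F)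
    (G : Subgroup (Perm (Option F))) (hG : ∀ g ∈ Gam F, g ∈ G) (hne : ∃ g ∈ G, g ∉ Gam F) :
    Jn G ({none, some 0, some 1} : Set (Option F)) := by
  obtain ⟨t, ht⟩ : ∃ t, t ∉ KK F := by
    by_contra hcon
    push Not at hcon
    exact hF ⟨fun x => mem_algebraicClosure_iff.1 (hcon x)⟩
  by_cases hcov : ∀ g ∈ G, ∃ x, x ∉ AA F ∧ x ∉ g '' AA F
  · obtain ⟨C, hCJ, hCA, hC⟩ := case2 G hG t ht hcov
    have hCeq : C = ({none, some 0, some 1} : Set (Option F)) := by
      apply Set.Subset.antisymm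
      · intro p hp
        cases p with
        | none => simp
        | some c =>
          by_contra hc
          simp only [Set.mem_insert_iff, Set.mem_singleton_iff, not_or, Option.some.injEq] at hc
          obtain ⟨g, hg, hgn⟩ := hne
          exact hgn (case2b G hG C hC c hp hc.2.1 hc.2.2 t
            (fun h => ht ((some_mem_AA t).1 (hCA h))) g hg)
      · intro p hp
        rcases hp with rfl | rfl | rfl
        · exact hC.1
        · exact hC.2.1
        · exact hC.2.2.1
    rw [← hCeq]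
    exact hCJ
  · push Not at hcov
    obtain ⟨g, hg, hcov⟩ := hcov
    exact case1 G hG t ht g hg (fun x => by
      by_cases hx : x ∈ AA F
      · exact Or.inl hx
      · exact Or.inr (hcov x hx)) _ (by simp)

end Main

end Pool.Agent.H37PG
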