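import Mathlib
import Pool.Agent.H37PG.Main

/-!
# Closures of finite sets in Jordan complements
-/

set_option autoImplicit false

namespace Pool.Agent.H37PG

open Equiv

section Clo

variable {F : Type*} [Field F]

/-- bounded Jordan complements. -/
def Bd (G : Subgroup (Perm (Option F))) (D : Set (Option F)) : Prop :=
  Jn G D ∧ ∃ g ∈ G, D ⊆ g '' AA F

/-- the smallest bounded Jordan complement containing `B`. -/
def cl (G : Subgroup (Perm (Option F))) (B : Set (Option F)) : Set (Option F) :=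
  ⋂₀ {D | Bd G D ∧ B ⊆ D}

variable {G : Subgroup (Perm (Option F))}

theorem subset_cl (B : Set (Option F)) : B ⊆ cl G B := fun _ hx _ hD => hD.2 hx

theorem cl_min {B D : Set (Option F)} (hD : Bd G D) (hB : B ⊆ D) : cl G B ⊆ D :=
  fun _ hx => hx D ⟨hD, hB⟩

theorem Bd.image {D : Set (Option F)} (hD : Bd G D) {g : Perm (Option F)} (hg : g ∈ G) :
    Bd G (g '' D) := by
  obtain ⟨hJ, h, hh, hs⟩ := hD
  refine ⟨hJ.image hg, g * h, G.mul_mem hg hh, ?_⟩
  rintro _ ⟨x, hx, rfl⟩
  obtain ⟨a, ha, rfl⟩ := hs hx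
  exact ⟨a, ha, rfl⟩

theorem cl_image_subset (B : Set (Option F)) {g : Perm (Option F)} (hg : g ∈ G) :
    cl G (g '' B) ⊆ g '' cl G B := by
  intro x hx
  refine ⟨g⁻¹ x, ?_, app_inv g x⟩
  intro D hD
  have := hx (g '' D) ⟨hD.1.image hg, Set.image_mono hD.2⟩
  obtain ⟨y, hy, rfl⟩ := this
  rwa [inv_app]

theorem cl_image (B : Set (Option F)) {g : Perm (Option F)} (hg : g ∈ G) :
    cl G (g '' B) = g '' cl G B := by
  apply Set.Subset.antisymm (cl_image_subset B hg)
  rintro _ ⟨x, hx, rfl⟩
  have h1 : (g⁻¹ : Perm (Option F)) '' (g '' B) = B := by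
    rw [← Set.image_comp]
    have : (g⁻¹ : Perm (Option F)) ∘ g = id := by
      funext p; exact inv_app g p
    rw [this, Set.image_id]
  have h2 := cl_image_subset (G := G) (g '' B) (G.inv_mem hg)
  rw [h1] at h2
  obtain ⟨y, hy, hyx⟩ := h2 hx
  rw [← hyx, app_inv]
  exact hy

theorem cl_bd [IsAlgClosed F] (hG : ∀ g ∈ Gam F, g ∈ G) {t : F} (ht : t ∉ KK F)
    (hcov : ∀ g ∈ G, ∃ x, x ∉ AA F ∧ x ∉ g '' AA F)
    {B : Set (Option F)} {g : Perm (Option F)} (hg : g ∈ G) (hB : B ⊆ g '' AA F) :
    Bd G (cl G B) ∧ cl G B ⊆ g '' AA F := by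
  have hgA : Bd G (g '' AA F) := ⟨(Jn_AA G hG).image hg, g, hg, fun x hx => hx⟩
  have hsub : cl G B ⊆ g '' AA F := cl_min hgA hB
  refine ⟨⟨?_, g, hg, hsub⟩, hsub⟩
  have e : cl G B = ⋂₀ {D | ∃ D', Bd G D' ∧ B ⊆ D' ∧ D = D' ∩ g '' AA F} := by
    apply Set.Subset.antisymm
    · rintro x hx _ ⟨D', hD', hBD, rfl⟩
      exact ⟨hx D' ⟨hD', hBD⟩, hsub hx⟩
    · intro x hx D hD
      exact (hx _ ⟨D, hD.1, hD.2, rfl⟩).1
  rw [e]
  apply Jn.sInter _ (g (some t))
  · rintro _ ⟨D', hD', hBD, rfl⟩ ⟨-, a, ha, hga⟩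
    exact ht ((some_mem_AA t).1 (g.injective hga ▸ ha))
  · rintro _ ⟨D', ⟨hJ', h, hh, hD'⟩, hBD, rfl⟩
    obtain ⟨z, hz1, hz2⟩ := hcov (g⁻¹ * h) (G.mul_mem (G.inv_mem hg) hh)
    rw [← Set.sInter_pair]
    apply Jn.sInter _ (g z)
    · intro D hD
      rcases hD with rfl | hD
      · intro hm
        obtain ⟨a, ha, hga⟩ := hD' hm
        apply hz2
        refine ⟨a, ha, ?_⟩
        rw [Perm.mul_apply, hga, inv_app]
      · rw [Set.mem_singleton_iff] at hD
        subst hD
        rintro ⟨a, ha, hga⟩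
        exact hz1 (g.injective hga ▸ ha)
    · intro D hD
      rcases hD with rfl | hD
      · exact hJ'
      · rw [Set.mem_singleton_iff] at hD
        subst hD
        exact hgA.1

theorem Bd.exists_not_mem [IsAlgClosed F] {t : F} (ht : t ∉ KK F) {D : Set (Option F)}
    (hD : Bd G D) : ∃ z, z ∉ D := by
  obtain ⟨-, g, hg, hs⟩ := hD
  refine ⟨g (some t), fun h => ?_⟩
  obtain ⟨a, ha, hga⟩ := hs h
  exact ht ((some_mem_AA t).1 (g.injective hga ▸ ha))

open Classical in
/-- all finite sets with fewer than `n` points are Jordan complements (`n`-transitivity). -/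
def Tr (G : Subgroup (Perm (Option F))) (n : ℕ) : Prop :=
  ∀ P : Finset (Option F), P.card < n → Jn G (P : Set (Option F))

theorem AA_infinite [CharZero F] : (AA F).Infinite := by
  apply Set.infinite_of_injective_forall_mem (f := fun m : ℕ => (some (m : F) : Option F))
  · intro a b hab
    exact Nat.cast_injective (Option.some_injective _ hab)
  · intro m
    rw [some_mem_AA]
    exact natCast_mem _ m

open Classical in
/-- small sets lie in a translate of `AA`. -/
theorem exists_cover [CharZero F] {n : ℕ} (hT : Tr G n) :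
    ∀ B : Finset (Option F), B.card ≤ n → ∃ g ∈ G, (B : Set (Option F)) ⊆ g '' AA F := by
  have key : ∀ B : Finset (Option F), B.card ≤ n → ∃ g ∈ G, ∀ x ∈ B, g x ∈ AA F := by
    intro B
    induction B using Finset.induction_on with
    | empty => intro _; exact ⟨1, G.one_mem, by simp⟩
    | insert x B hx ih =>
      intro hc
      rw [Finset.card_insert_of_notMem hx] at hc
      obtain ⟨g, hg, hgB⟩ := ih (by omega)
      obtain ⟨a, ha, haB⟩ := AA_infinite (F := F) |>.exists_notMem_finset (B.image g)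
      have hJ := hT (B.image g) (lt_of_le_of_lt Finset.card_image_le (by omega))
      obtain ⟨u, hu, huf, hux⟩ := hJ (g x) a
        (by
          rw [Finset.mem_coe, Finset.mem_image]
          rintro ⟨y, hy, hyx⟩
          exact hx (g.injective hyx ▸ hy))
        (by rwa [Finset.mem_coe])
      refine ⟨u * g, G.mul_mem hu hg, ?_⟩
      intro y hy
      rw [Finset.mem_insert] at hy
      rw [Perm.mul_apply]
      rcases hy with rfl | hy
      · rw [hux]; exact ha
      · rw [huf _ (by rw [Finset.mem_coe]; exact Finset.mem_image_of_mem g hy)]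
        exact hgB y hy
  intro B hB
  obtain ⟨g, hg, hgB⟩ := key B hB
  exact ⟨g⁻¹, G.inv_mem hg, fun x hx => ⟨g x, hgB x hx, inv_app g x⟩⟩

omit [Field F] in
open Classical in
/-- transitivity on pairs (set, point). -/
theorem exists_move {n : ℕ} (hT : Tr G n) :
    ∀ b b' : Finset (Option F), b.card = b'.card → b.card < n → ∀ x x', x ∉ b → x' ∉ b' →
      ∃ g ∈ G, b.image g = b' ∧ g x = x' := by
  intro b
  induction b using Finset.induction_on with
  | empty =>
    intro b' hc hn x x' hx hx'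
    rw [Finset.card_empty] at hc
    have hb' : b' = ∅ := Finset.card_eq_zero.1 hc.symm
    subst hb'
    obtain ⟨g, hg, -, hgx⟩ := hT ∅ hn x x' (by simp) (by simp)
    exact ⟨g, hg, by simp, hgx⟩
  | insert y b hy ih =>
    intro b' hc hn x x' hx hx'
    rw [Finset.card_insert_of_notMem hy] at hc hn
    have hne : b'.Nonempty := by
      rw [← Finset.card_pos]; omega
    obtain ⟨y', hy'⟩ := hne
    obtain ⟨g, hg, hgb, hgy⟩ := ih (b'.erase y')
      (by rw [Finset.card_erase_of_mem hy']; omega) (by omega) y y' hy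
      (Finset.notMem_erase y' b')
    have hgi : (insert y b).image g = b' := by
      rw [Finset.image_insert, hgb, hgy, Finset.insert_erase hy']
    have hJ := hT b' (by omega)
    obtain ⟨u, hu, huf, hux⟩ := hJ (g x) x'
      (by
        rw [Finset.mem_coe, ← hgi, Finset.mem_image]
        rintro ⟨z, hz, hzx⟩
        exact hx (g.injective hzx ▸ hz))
      (by rwa [Finset.mem_coe])
    refine ⟨u * g, G.mul_mem hu hg, ?_, ?_⟩
    · have : (insert y b).image (u * g : Perm (Option F)) = ((insert y b).image g).image u := by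
        rw [Finset.image_image]; rfl
      rw [this, hgi]
      ext z
      rw [Finset.mem_image]
      constructor
      · rintro ⟨w, hw, rfl⟩
        rwa [huf w hw]
      · intro hz
        exact ⟨z, hz, huf z hz⟩
    · rw [Perm.mul_apply, hux]

open Classical in
/-- The dichotomy: exchange or total comparability. -/
theorem dichotomy [IsAlgClosed F] [CharZero F] (hG : ∀ g ∈ Gam F, g ∈ G) {t : F} (ht : t ∉ KK F)
    (hcov : ∀ g ∈ G, ∃ x, x ∉ AA F ∧ x ∉ g '' AA F) {n : ℕ} (hT : Tr G n) (k : ℕ) (hk : k < n) :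
    (∀ b : Finset (Option F), b.card = k → ∀ x y, x ∉ b → y ∉ b →
      x ∈ cl G (insert y b : Finset (Option F)) → y ∈ cl G (insert x b : Finset (Option F))) ∨
    (∀ b : Finset (Option F), b.card = k → ∀ x y, x ∉ b → y ∉ b →
      x ∈ cl G (insert y b : Finset (Option F)) ∨ y ∈ cl G (insert x b : Finset (Option F))) := by
  by_cases hSt : ∀ b : Finset (Option F), b.card = k → ∀ x y, x ∉ b → y ∉ b →
      x ∈ cl G (insert y b : Finset (Option F)) → y ∈ cl G (insert x b : Finset (Option F))
  · exact Or.inl hSt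
  right
  push Not at hSt
  obtain ⟨b0, hb0, x0, y0, hx0, hy0, hxy, hyx⟩ := hSt
  intro b hb x y hx hy
  by_cases h : y ∈ cl G (insert x b : Finset (Option F))
  · exact Or.inr h
  left
  obtain ⟨g, hg, hgb, hgx⟩ := exists_move hT b0 b (hb0.trans hb.symm) (by omega) x0 x hx0 hx
  have him : ∀ z, ((insert (g z) b : Finset (Option F)) : Set (Option F)) =
      g '' ((insert z b0 : Finset (Option F)) : Set (Option F)) := by
    intro z
    rw [← Finset.coe_image, Finset.image_insert, hgb]
  have hCx : cl G (insert x b : Finset (Option F)) =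
      g '' cl G (insert x0 b0 : Finset (Option F)) := by
    rw [← hgx, him, cl_image _ hg]
  obtain ⟨h1, hh1, hcb⟩ := exists_cover hT (insert x b)
    (le_trans (Finset.card_insert_le _ _) (by omega))
  have hbd := (cl_bd hG ht hcov hh1 hcb).1
  have hgy : g y0 ∉ cl G (insert x b : Finset (Option F)) := by
    rw [hCx]
    rintro ⟨a, ha, hga⟩
    exact hyx (g.injective hga ▸ ha)
  obtain ⟨u, hu, huf, huy⟩ := hbd.1 (g y0) y hgy h
  have hxm : x ∈ cl G (insert (g y0) b : Finset (Option F)) := by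
    rw [him, cl_image _ hg, ← hgx]
    exact ⟨x0, hxy, rfl⟩
  have hub : ((insert y b : Finset (Option F)) : Set (Option F)) =
      u '' ((insert (g y0) b : Finset (Option F)) : Set (Option F)) := by
    rw [← Finset.coe_image, Finset.image_insert, huy]
    congr 2
    ext z
    rw [Finset.mem_image]
    have hfix : ∀ w ∈ b, u w = w := fun w hw =>
      huf w (subset_cl _ (by rw [Finset.coe_insert]; exact Or.inr hw))
    constructor
    · intro hz
      exact ⟨z, hz, hfix z hz⟩
    · rintro ⟨w, hw, rfl⟩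
      rwa [hfix w hw]
  rw [hub, cl_image _ hu]
  refine ⟨x, hxm, huf x (subset_cl _ ?_)⟩
  rw [Finset.coe_insert]
  exact Or.inl rfl

end Clo

end Pool.Agent.H37PG
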