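import Mathlib
import Pool.Agent.H37PG.Clo

/-!
# The chain type: comparability of closures, first consequences
-/

set_option autoImplicit false

namespace Pool.Agent.H37PG

open Equiv

open Classical in
/-- hypotheses of the chain type. -/
structure Ctx {F : Type*} [Field F] [IsAlgClosed F] [CharZero F]
    (G : Subgroup (Perm (Option F))) (b0 : Finset (Option F)) (t : F) : Prop where
  hG : ∀ g ∈ Gam F, g ∈ G
  ht : t ∉ KK F
  hcov : ∀ g ∈ G, ∃ x, x ∉ AA F ∧ x ∉ g '' AA F
  hT : Tr G (b0.card + 1)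
  hb0 : (b0 : Set (Option F)) ⊆ AA F
  hCh : ∀ b : Finset (Option F), b.card = b0.card → ∀ x y, x ∉ b → y ∉ b →
      x ∈ cl G (insert y b : Finset (Option F)) ∨ y ∈ cl G (insert x b : Finset (Option F))

namespace Ctx

variable {F : Type*} [Field F] [IsAlgClosed F] [CharZero F]
  {G : Subgroup (Perm (Option F))} {b0 : Finset (Option F)} {t : F}

open Classical in
/-- the closure of `b0` and `v`. -/
def DD (_ : Ctx G b0 t) (v : Option F) : Set (Option F) :=
  cl G (insert v b0 : Finset (Option F))

variable (c : Ctx G b0 t)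

include c

open Classical in
theorem bd' (b : Finset (Option F)) (hb : b.card = b0.card) (v : Option F) :
    Bd G (cl G (insert v b : Finset (Option F))) := by
  obtain ⟨h1, hh1, hcb⟩ := exists_cover c.hT (insert v b)
    (le_trans (Finset.card_insert_le _ _) (by omega))
  exact (cl_bd c.hG c.ht c.hcov hh1 hcb).1

theorem bd (v : Option F) : Bd G (c.DD v) := c.bd' b0 rfl v

open Classical in
theorem AA_sub' (b : Finset (Option F)) (hb : b.card = b0.card) (hbA : (b : Set (Option F)) ⊆ AA F)
    {v : Option F} (hv : v ∉ AA F) : AA F ⊆ cl G (insert v b : Finset (Option F)) := by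
  intro a ha
  by_cases hab : a ∈ b
  · exact subset_cl _ (by rw [Finset.coe_insert]; exact Or.inr hab)
  have hvb : v ∉ b := fun h => hv (hbA h)
  rcases c.hCh b hb a v hab hvb with h | h
  · exact h
  · exfalso
    apply hv
    have hsub : ((insert a b : Finset (Option F)) : Set (Option F)) ⊆ AA F := by
      rw [Finset.coe_insert]
      exact Set.insert_subset ha hbA
    exact cl_min ⟨Jn_AA G c.hG, 1, G.one_mem, by simp⟩ hsub h

theorem AA_sub {v : Option F} (hv : v ∉ AA F) : AA F ⊆ c.DD v := c.AA_sub' b0 rfl c.hb0 hv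

open Classical in
theorem mem_self (v : Option F) : v ∈ c.DD v :=
  subset_cl _ (by rw [Finset.coe_insert]; exact Or.inl rfl)

open Classical in
theorem DD_eq (b : Finset (Option F)) (hb : b.card = b0.card) (hbA : (b : Set (Option F)) ⊆ AA F)
    {v : Option F} (hv : v ∉ AA F) : cl G (insert v b : Finset (Option F)) = c.DD v := by
  apply Set.Subset.antisymm
  · apply cl_min (c.bd v)
    rw [Finset.coe_insert]
    exact Set.insert_subset (c.mem_self v) (fun x hx => c.AA_sub hv (hbA hx))
  · apply cl_min (c.bd' b hb v)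
    rw [Finset.coe_insert]
    apply Set.insert_subset
    · exact subset_cl _ (by rw [Finset.coe_insert]; exact Or.inl rfl)
    · exact fun x hx => c.AA_sub' b hb hbA hv (c.hb0 hx)

open Classical in
theorem image_eq {γ : Perm (Option F)} (hγ : γ ∈ G) (hA : ∀ x ∈ AA F, γ x ∈ AA F)
    {v : Option F} (hv : γ v ∉ AA F) : γ '' c.DD v = c.DD (γ v) := by
  have h1 : γ '' c.DD v = cl G (insert (γ v) (b0.image γ) : Finset (Option F)) := by
    rw [DD, ← cl_image _ hγ, ← Finset.coe_image, Finset.image_insert]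
  rw [h1]
  apply c.DD_eq
  · exact Finset.card_image_of_injective _ γ.injective
  · rw [Finset.coe_image]
    rintro _ ⟨x, hx, rfl⟩
    exact hA x (c.hb0 hx)
  · exact hv

theorem DD_mono {v w : Option F} (hv : v ∉ AA F) (hw : w ∈ c.DD v) : c.DD w ⊆ c.DD v := by
  classical
  apply cl_min (c.bd v)
  rw [Finset.coe_insert]
  exact Set.insert_subset hw (fun x hx => c.AA_sub hv (c.hb0 hx))

theorem total {v w : Option F} (hv : v ∉ AA F) (hw : w ∉ AA F) : v ∈ c.DD w ∨ w ∈ c.DD v := by
  classical
  exact c.hCh b0 rfl v w (fun h => hv (c.hb0 h)) (fun h => hw (c.hb0 h))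

theorem invol {γ : Perm (Option F)} (hγ : γ ∈ G) (hA : ∀ x ∈ AA F, γ x ∈ AA F)
    {v : Option F} (hv : v ∉ AA F) (h2 : γ (γ v) = v) : c.DD (γ v) = c.DD v := by
  have hγv : γ v ∉ AA F := fun h => hv (h2 ▸ hA _ h)
  have e1 : γ '' c.DD v = c.DD (γ v) := c.image_eq hγ hA hγv
  have e2 : γ '' c.DD (γ v) = c.DD v := by
    have := c.image_eq hγ hA (v := γ v) (by rw [h2]; exact hv)
    rwa [h2] at this
  rcases c.total hv hγv with h | h
  · -- v ∈ DD (γ v)
    have s1 : c.DD v ⊆ c.DD (γ v) := c.DD_mono hγv h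
    have s2 : c.DD (γ v) ⊆ c.DD v := by
      rw [← e1]
      refine (Set.image_mono s1).trans ?_
      rw [e2]
    exact Set.Subset.antisymm s2 s1
  · have s1 : c.DD (γ v) ⊆ c.DD v := c.DD_mono hv h
    have s2 : c.DD v ⊆ c.DD (γ v) := by
      rw [← e2]
      refine (Set.image_mono s1).trans ?_
      rw [e1]
    exact Set.Subset.antisymm s1 s2

/-- the main comparison lemma. -/
theorem move_mem {T ν : Perm (Option F)} (hT : T ∈ G) {v : Option F} (hv : v ∉ AA F)
    (hν : ν '' c.DD v = c.DD v) (hνT : ∀ x, ν (T x) = T⁻¹ (ν x))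
    (hTA : ∀ x ∈ AA F, T x ∈ c.DD v) : T v ∈ c.DD v := by
  classical
  by_contra hw
  have h1 : T '' c.DD v = cl G (insert (T v) (b0.image T) : Finset (Option F)) := by
    rw [DD, ← cl_image _ hT, ← Finset.coe_image, Finset.image_insert]
  have hbs : ∀ x ∈ b0.image T, x ∈ c.DD v := by
    intro x hx
    rw [Finset.mem_image] at hx
    obtain ⟨y, hy, rfl⟩ := hx
    exact hTA y (c.hb0 hy)
  have hsub : c.DD v ⊆ T '' c.DD v := by
    intro z hz
    rw [h1]
    by_cases hzb : z ∈ b0.image T
    · exact subset_cl _ (by rw [Finset.coe_insert]; exact Or.inr hzb)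
    rcases c.hCh (b0.image T) (Finset.card_image_of_injective _ T.injective) z (T v) hzb
      (fun h => hw (hbs _ h)) with h | h
    · exact h
    · exfalso
      apply hw
      have : ((insert z (b0.image T) : Finset (Option F)) : Set (Option F)) ⊆ c.DD v := by
        rw [Finset.coe_insert]
        exact Set.insert_subset hz (fun x hx => hbs x hx)
      exact cl_min (c.bd v) this h
  have hback : ∀ x ∈ c.DD v, T x ∈ c.DD v := by
    intro x hx
    have h2 : ν x ∈ c.DD v := by rw [← hν]; exact ⟨x, hx, rfl⟩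
    obtain ⟨y, hy, hyx⟩ := hsub h2
    have h3 : ν (T x) = y := by rw [hνT, ← hyx, inv_app]
    rw [← hν] at hy
    obtain ⟨z, hz, hzy⟩ := hy
    have : T x = z := ν.injective (h3.trans hzy.symm)
    rw [this]
    exact hz
  exact hw (hback v (c.mem_self v))

end Ctx

end Pool.Agent.H37PG
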