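import Mathlib
import Pool.Agent.H37PG.Gal

/-!
# Exchange for algebraic dependence, and a shift lemma for minimal polynomials
-/

set_option autoImplicit false

namespace Pool.Agent.H37PG

open Polynomial

/-- exchange: if `x` is algebraic over `K(w)` and transcendental over `K`, then `w` is algebraic
over `K(x)`. -/
theorem exchange {K F : Type*} [Field K] [Field F] [Algebra K F] {x w : F}
    (hx : Transcendental K x)
    (h : IsAlgebraic (IntermediateField.adjoin K ({w} : Set F)) x) :
    IsAlgebraic (IntermediateField.adjoin K ({x} : Set F)) w := by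
  rw [IntermediateField.isAlgebraic_adjoin_iff] at h ⊢
  have e1 : x ∈ (AlgebraicIndependent.matroid K F).closure (insert w ∅) := by
    rw [AlgebraicIndependent.matroid_closure_eq, insert_empty_eq]
    exact h
  have e2 : x ∉ (AlgebraicIndependent.matroid K F).closure ∅ := by
    rw [AlgebraicIndependent.matroid_closure_eq]
    intro h'
    apply hx
    have : IsAlgebraic (Algebra.adjoin K (∅ : Set F)) x := h'
    rw [Algebra.adjoin_empty] at this
    exact this.restrictScalars K
  have e3 := Matroid.closure_exchange ⟨e1, e2⟩
  have e4 := e3.1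
  rw [AlgebraicIndependent.matroid_closure_eq, insert_empty_eq] at e4
  exact e4

/-- the coefficient below the leading one after a shift. -/
theorem coeff_comp_shift {E : Type*} [Field E] (f : E[X]) (hf : f.Monic) (d : ℕ)
    (hd : f.natDegree = d + 1) (a : E) :
    (f.comp (X + C a)).coeff d = f.coeff d + (d + 1) * a := by
  have h1 : f.comp (X + C a) = taylor a f := rfl
  rw [h1, taylor_coeff]
  have h2 : (hasseDeriv d f).natDegree ≤ 1 := by
    refine (natDegree_hasseDeriv_le f d).trans ?_
    omega
  rw [eval_eq_sum_range' (n := 2) (by omega), Finset.sum_range_succ, Finset.sum_range_one,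
    hasseDeriv_coeff, hasseDeriv_coeff]
  have h3 : f.coeff (1 + d) = 1 := by
    rw [add_comm, ← hd]
    exact hf
  rw [h3]
  simp [Nat.choose_succ_self_right, add_comm 1 d]

/-- If `σ` preserves `E` and sends `w` to `w + a`, the subleading coefficient of the minimal
polynomial of `w` over `E` is shifted. -/
theorem minpoly_shift {F : Type*} [Field F] {K : Type*} [Field K] [Algebra K F]
    (E : IntermediateField K F) (w : F) (hw : IsIntegral E w) (d : ℕ)
    (hd : (minpoly E w).natDegree = d + 1) (σ : F ≃+* F) (hσ : ∀ x, x ∈ E → σ x ∈ E)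
    (a : E) (hσw : σ w = w + a) :
    σ ((minpoly E w).coeff d : F) + (d + 1) * a = ((minpoly E w).coeff d : F) := by
  let τ : E →+* E := (σ : F →+* F).restrict E.toSubfield.toSubring E.toSubfield.toSubring hσ
  have hτ : ∀ x : E, ((τ x : E) : F) = σ x := fun x => rfl
  set f := minpoly E w with hf
  have hfm : f.Monic := minpoly.monic hw
  have hgm : (f.map τ).Monic := hfm.map τ
  have hgd : (f.map τ).natDegree = d + 1 := by rw [hfm.natDegree_map, hd]
  -- the shifted polynomial
  have hpm : ((f.map τ).comp (X + C a)).Monic := hgm.comp_X_add_C a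
  have hpd : ((f.map τ).comp (X + C a)).natDegree = d + 1 := by
    rw [natDegree_comp, hgd, natDegree_X_add_C, mul_one]
  have hroot : aeval w ((f.map τ).comp (X + C a)) = 0 := by
    rw [aeval_comp]
    have h1 : aeval w (X + C a : E[X]) = σ w := by
      rw [hσw]
      simp
    rw [h1]
    -- aeval (σ w) (f.map τ) = σ (aeval w f)
    have h2 : aeval (σ w) (f.map τ) = σ (aeval w f) := by
      rw [aeval_def, aeval_def, eval₂_map]
      have h3 : (σ : F →+* F) (eval₂ (algebraMap E F) w f) =
          eval₂ ((σ : F →+* F).comp (algebraMap E F)) ((σ : F →+* F) w) f :=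
        hom_eval₂ f (algebraMap E F) (σ : F →+* F) w
      refine Eq.trans ?_ h3.symm
      rfl
    rw [h2, hf, minpoly.aeval, map_zero]
  have heq : (f.map τ).comp (X + C a) = f := by
    rw [hf]
    apply minpoly.unique E w hpm hroot
    intro q hq hq0
    have h1 := minpoly.min E w hq hq0
    rw [← hf] at h1
    rw [degree_eq_natDegree hpm.ne_zero, hpd, ← hd, ← degree_eq_natDegree hfm.ne_zero]
    exact h1
  have hc := coeff_comp_shift (f.map τ) hgm d hgd a
  rw [heq, coeff_map] at hc
  have := congrArg (fun z : E => (z : F)) hc
  refine Eq.trans ?_ this.symm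
  push_cast
  rw [hτ]

end Pool.Agent.H37PG
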