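import Mathlib
import Pool.Agent.H37PG.ChainField
import Pool.Agent.H37PG.Exch

/-!
# The chain type does not occur
-/

set_option autoImplicit false

namespace Pool.Agent.H37PG

open Equiv Polynomial

namespace Ctx

variable {F : Type*} [Field F] [IsAlgClosed F] [CharZero F]
  {G : Subgroup (Perm (Option F))} {b0 : Finset (Option F)} {t : F} (c : Ctx G b0 t)

include c

/-- automorphisms fixing `KK F` pointwise permute the closures. -/
theorem gal_image {σ : F ≃+* F} (hσ : ∀ a ∈ KK F, σ a = a) {v : F} (hv : v ∉ KK F) :
    gal σ '' c.DD (some v) = c.DD (some (σ v)) := by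
  have hσv : σ v ∉ KK F := by
    intro h
    apply hv
    have h1 := hσ _ h
    have := σ.injective h1
    rwa [this] at h
  have h := c.image_eq (γ := gal σ) (c.hG _ (gal_mem σ)) (by
    intro x hx
    cases x with
    | none => exact none_mem_AA
    | some a =>
      rw [some_mem_AA] at hx
      rw [gal_some, hσ a hx, some_mem_AA]
      exact hx) (v := some v) (by rw [gal_some, some_mem_AA]; exact hσv)
  rw [gal_some] at h
  exact h

theorem bel_gal {σ : F ≃+* F} (hσ : ∀ a ∈ KK F, σ a = a) {w x : F} (hw : w ∉ KK F)
    (hx : c.Bel w x) : c.Bel (σ w) (σ x) := by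
  rcases hx with hx | ⟨h1, h2⟩
  · left
    rwa [hσ x hx]
  · by_cases hxK : x ∈ KK F
    · left
      rwa [hσ x hxK]
    right
    constructor
    · rw [← c.gal_image hσ hw]
      exact ⟨some x, h1, rfl⟩
    · rw [← c.gal_image hσ hxK]
      rintro ⟨p, hp, hpw⟩
      rw [← gal_some] at hpw
      exact h2 ((gal σ).injective hpw ▸ hp)

/-- No element is strictly below another. -/
theorem not_bel {w x : F} (hw : w ∉ KK F) (hx : x ∉ KK F) : some w ∈ c.DD (some x) := by
  by_contra hwx
  have hxw : some x ∈ c.DD (some w) := by
    rcases c.total (v := some x) (w := some w) (by rwa [some_mem_AA]) (by rwa [some_mem_AA])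
      with h | h
    · exact h
    · exact absurd h hwx
  have hbel : c.Bel w x := Or.inr ⟨hxw, hwx⟩
  obtain ⟨E, hE⟩ := c.exists_bel w hw
  have hwE : w ∉ E := by
    intro h
    rcases (hE w).1 h with h | h
    · exact hw h
    · exact h.2 (c.mem_self _)
  have hxE : x ∈ E := (hE x).2 hbel
  have hKE : ∀ a ∈ KK F, a ∈ E := fun a ha => (hE a).2 (Or.inl ha)
  -- automorphisms moving elements transcendental over K(w)
  have move : ∀ z : F, Transcendental (IntermediateField.adjoin (KK F) ({w} : Set F)) z →
      ∃ σ : F ≃+* F, (∀ a ∈ KK F, σ a = a) ∧ σ w = w ∧ σ z = z + w := by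
    intro z hz
    have hzw : Transcendental (IntermediateField.adjoin (KK F) ({w} : Set F)) (z + w) := by
      intro h
      apply hz
      have h1 : IsAlgebraic (IntermediateField.adjoin (KK F) ({w} : Set F)) w :=
        isAlgebraic_algebraMap
          (⟨w, IntermediateField.mem_adjoin_simple_self _ _⟩ :
            IntermediateField.adjoin (KK F) ({w} : Set F))
      have := h.sub h1
      rwa [add_sub_cancel_right] at this
    obtain ⟨σ, hσ, hσz⟩ := exists_aut hz hzw
    refine ⟨σ, ?_, ?_, hσz⟩
    · intro a ha
      exact hσ (algebraMap (KK F) _ ⟨a, ha⟩)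
    · exact hσ ⟨w, IntermediateField.mem_adjoin_simple_self _ _⟩
  by_cases hcase : IsAlgebraic (IntermediateField.adjoin (KK F) ({w} : Set F)) x
  swap
  · -- case 1
    obtain ⟨σ, hσK, hσw, hσx⟩ := move x hcase
    have h1 := c.bel_gal hσK hw hbel
    rw [hσw, hσx] at h1
    have h2 : x + w ∈ E := (hE _).2 h1
    apply hwE
    have := sub_mem h2 hxE
    rwa [add_sub_cancel_left] at this
  -- case 2
  have hwalg : IsAlgebraic (IntermediateField.adjoin (KK F) ({x} : Set F)) w :=
    exchange (transc_of_not_mem hx) hcase
  have hwE' : IsAlgebraic E w := by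
    have hle : IntermediateField.adjoin (KK F) ({x} : Set F) ≤ E := by
      rw [IntermediateField.adjoin_simple_le_iff]
      exact hxE
    obtain ⟨p, hp0, hp⟩ := hwalg
    refine ⟨p.map (IntermediateField.inclusion hle).toRingHom, ?_, ?_⟩
    · rw [Ne, Polynomial.map_eq_zero]
      exact hp0
    · rw [aeval_def, eval₂_map]
      rw [aeval_def] at hp
      exact hp
  have hwint : IsIntegral E w := hwE'.isIntegral
  obtain ⟨d, hd⟩ : ∃ d, (minpoly E w).natDegree = d + 1 :=
    Nat.exists_eq_succ_of_ne_zero (minpoly.natDegree_pos hwint).ne'
  set cc : F := ((minpoly E w).coeff d : F) with hcc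
  have hccE : cc ∈ E := ((minpoly E w).coeff d).2
  set e : F := cc + (d + 1) * w with he
  -- invariance of e
  have hinv : ∀ σ : F ≃+* F, (∀ a ∈ KK F, σ a = a) → ∀ a ∈ KK F, σ w = w + a → σ e = e := by
    intro σ hσ a ha hσw
    have hσE : ∀ z, z ∈ E → σ z ∈ E := by
      intro z hz
      rw [hE] at hz ⊢
      have h1 := c.bel_gal hσ hw hz
      rw [hσw] at h1
      rcases h1 with h1 | ⟨h1, h2⟩
      · exact Or.inl h1
      · by_cases hK : σ z ∈ KK F
        · exact Or.inl hK
        right
        rw [c.D_add hw ha] at h1
        refine ⟨h1, fun h3 => h2 ?_⟩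
        have h4 : c.DD (some w) ⊆ c.DD (some (σ z)) := c.DD_mono (by rwa [some_mem_AA]) h3
        rw [← c.D_add hw ha] at h4
        exact h4 (c.mem_self _)
    have h := minpoly_shift E w hwint d hd σ hσE ⟨a, hKE a ha⟩ hσw
    have h' : σ cc + (d + 1) * a = cc := h
    have h5 : σ e = σ cc + (d + 1) * (w + a) := by
      rw [he, map_add, map_mul, hσw]
      simp
    rw [h5, he]
    linear_combination h'
  -- e is algebraic over K(w)
  have hew : IsAlgebraic (IntermediateField.adjoin (KK F) ({w} : Set F)) e := by
    by_contra htr
    obtain ⟨σ, hσK, hσw, hσe⟩ := move e htr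
    have := hinv σ hσK 0 (zero_mem _) (by rw [hσw, add_zero])
    rw [this] at hσe
    apply hw
    have : w = 0 := by linear_combination -hσe
    rw [this]
    exact zero_mem _
  by_cases heK : e ∈ KK F
  · apply hwE
    have h1 : w = (e - cc) / ((d : F) + 1) := by
      have : ((d : F) + 1) ≠ 0 := by exact_mod_cast Nat.succ_ne_zero d
      rw [he]
      field_simp
      ring
    rw [h1]
    have h2 : ((d : F) + 1) ∈ E := add_mem (natCast_mem E d) (one_mem E)
    exact div_mem (sub_mem (hKE e heK) hccE) h2
  · have h1 : IsAlgebraic (IntermediateField.adjoin (KK F) ({e} : Set F)) w :=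
      exchange (transc_of_not_mem heK) hew
    obtain ⟨p, hp0, hp⟩ := h1
    -- infinitely many roots
    have hroots : ∀ m : ℕ, aeval (w + (m : F)) p = 0 := by
      intro m
      have hwm : w + (m : F) ∉ KK F := by
        intro h
        apply hw
        have := sub_mem h (natCast_mem (KK F) m)
        rwa [add_sub_cancel_right] at this
      obtain ⟨σ, hσ, hσw⟩ := exists_aut (transc_of_not_mem hw) (transc_of_not_mem hwm)
      have hσK : ∀ a ∈ KK F, σ a = a := fun a ha => hσ ⟨a, ha⟩
      have hσe : σ e = e := hinv σ hσK (m : F) (natCast_mem _ m) hσw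
      -- σ as an algebra map over K(e)
      have hfix : ∀ z : IntermediateField.adjoin (KK F) ({e} : Set F), σ (z : F) = z := by
        intro z
        let S : IntermediateField (KK F) F :=
          { carrier := {y | σ y = y}
            mul_mem' := fun {a b} ha hb => by
              change σ (a * b) = a * b
              rw [map_mul]
              rw [show σ a = a from ha, show σ b = b from hb]
            add_mem' := fun {a b} ha hb => by
              change σ (a + b) = a + b
              rw [map_add]
              rw [show σ a = a from ha, show σ b = b from hb]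
            algebraMap_mem' := fun r => hσ r
            inv_mem' := fun a ha => by
              change σ a⁻¹ = a⁻¹
              rw [map_inv₀]
              rw [show σ a = a from ha] }
        have hle : IntermediateField.adjoin (KK F) ({e} : Set F) ≤ S := by
          rw [IntermediateField.adjoin_simple_le_iff]
          exact hσe
        exact hle z.2
      have h2 : aeval (σ w) p = σ (aeval w p) := by
        rw [aeval_def, aeval_def]
        have h3 : (σ : F →+* F) (eval₂ (algebraMap _ F) w p) =
          eval₂ ((σ : F →+* F).comp
            (algebraMap (IntermediateField.adjoin (KK F) ({e} : Set F)) F))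
            ((σ : F →+* F) w) p := hom_eval₂ p (algebraMap _ F) (σ : F →+* F) w
        have h4 : (σ : F →+* F).comp
            (algebraMap (IntermediateField.adjoin (KK F) ({e} : Set F)) F) =
            algebraMap (IntermediateField.adjoin (KK F) ({e} : Set F)) F := by
          ext z
          exact hfix z
        rw [h4] at h3
        exact h3.symm
      rw [← hσw, h2, hp, map_zero]
    have hq0 : p.map (algebraMap (IntermediateField.adjoin (KK F) ({e} : Set F)) F) ≠ 0 := by
      rw [Ne, Polynomial.map_eq_zero]
      exact hp0
    apply hq0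
    apply Polynomial.eq_zero_of_infinite_isRoot
    apply Set.infinite_of_injective_forall_mem (f := fun m : ℕ => w + (m : F))
    · intro a b hab
      have : (a : F) = (b : F) := by
        have h' : w + (a : F) = w + (b : F) := hab
        linear_combination h'
      exact_mod_cast this
    · intro m
      have := hroots m
      rw [aeval_def, ← eval_map] at this
      exact this

/-- the chain type is impossible. -/
theorem contra : False := by
  have htK : t ∉ KK F := c.ht
  obtain ⟨z, hz⟩ := (c.bd (some t)).exists_not_mem c.ht
  apply hz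
  cases z with
  | none => exact c.AA_sub (by rwa [some_mem_AA]) none_mem_AA
  | some z =>
    by_cases hzK : z ∈ KK F
    · exact c.mem_of_K htK hzK
    · exact c.not_bel hzK htK

end Ctx

end Pool.Agent.H37PG
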