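import Mathlib
import Pool.Agent.H37PG.Even

/-!
# No Steiner type for even `n`
-/

set_option autoImplicit false

namespace Pool.Agent.H37PG

open Equiv Polynomial

section Maps

variable {F : Type*} [Field F]

/-- `z ↦ c / z`. -/
noncomputable def kap (c : F) (hc : c ≠ 0) : Perm (Option F) := aff c 0 hc * iv

theorem kap_mem (c : F) (hc : c ≠ 0) : kap c hc ∈ Gam F := mul_mem (aff_mem _ _ _) iv_mem

theorem kap_none (c : F) (hc : c ≠ 0) : kap c hc none = some 0 := by
  simp [kap]

theorem kap_zero (c : F) (hc : c ≠ 0) : kap c hc (some 0) = none := by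
  simp [kap]

theorem kap_some (c : F) (hc : c ≠ 0) {z : F} (hz : z ≠ 0) : kap c hc (some z) = some (c / z) := by
  rw [kap, Perm.mul_apply, iv_some hz, aff_some, add_zero, div_eq_mul_inv]

end Maps

namespace StC

variable {F : Type*} [Field F] [IsAlgClosed F] [CharZero F]
variable {G : Subgroup (Perm (Option F))} {n : ℕ} {t : F} (c : StC G n t)

open Classical in
/-- the union of two fibres. -/
noncomputable def BB (m : ℕ) (u v : F) : Finset (Option F) := Fib m u ∪ Fib m v

omit [IsAlgClosed F] [CharZero F] in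
theorem mem_BB {m : ℕ} (hm : 0 < m) {u v z : F} : some z ∈ BB m u v ↔ z ^ m = u ∨ z ^ m = v := by
  classical
  rw [BB, Finset.mem_union, mem_Fib hm, mem_Fib hm]

omit [IsAlgClosed F] [CharZero F] in
theorem none_notMem_BB {m : ℕ} {u v : F} : none ∉ BB m u v := by
  classical
  rw [BB, Finset.mem_union]
  rintro (h | h) <;> exact none_notMem_Fib h

theorem card_BB {m : ℕ} (hm : 0 < m) {u v : F} (hu : u ≠ 0) (hv : v ≠ 0) (huv : u ≠ v) :
    (BB m u v).card = 2 * m := by
  classical
  rw [BB, Finset.card_union_of_disjoint, card_Fib hm hu, card_Fib hm hv]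
  · ring
  · rw [Finset.disjoint_left]
    intro p hp hp'
    cases p with
    | none => exact none_notMem_Fib hp
    | some z =>
      rw [mem_Fib hm] at hp hp'
      exact huv (hp.symm.trans hp')

/-- the line through `u` and `v`. -/
def LL (G : Subgroup (Perm (Option F))) (m : ℕ) (u v w : F) : Prop :=
  ∃ z : F, z ^ m = w ∧ some z ∈ cl G (BB m u v : Set (Option F))

include c

/-- an element of `G` preserving an `n`-set (as a set) preserves its closure. -/
theorem pres {B : Finset (Option F)} {γ : Perm (Option F)} (hγ : γ ∈ G)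
    (h : ∀ p, p ∈ B ↔ γ p ∈ B) {p : Option F} (hp : p ∈ cl G (B : Set (Option F))) :
    γ p ∈ cl G (B : Set (Option F)) := by
  have h1 : γ '' (B : Set (Option F)) = B := by
    ext q
    constructor
    · rintro ⟨r, hr, rfl⟩
      exact (h r).1 hr
    · intro hq
      refine ⟨γ⁻¹ q, ?_, app_inv γ q⟩
      rw [Finset.mem_coe, h, app_inv]
      exact hq
  rw [← h1, cl_image _ hγ]
  exact ⟨p, hp, rfl⟩

theorem scale_mem {m : ℕ} (hm : 0 < m) {u v z z' : F} (hz : z ≠ 0) (h : z' ^ m = z ^ m)
    (hzm : some z ∈ cl G (BB m u v : Set (Option F))) :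
    some z' ∈ cl G (BB m u v : Set (Option F)) := by
  have hz' : z' ≠ 0 := by
    rintro rfl
    rw [zero_pow hm.ne'] at h
    exact hz (pow_eq_zero_iff hm.ne' |>.1 h.symm)
  have hq : z' / z ≠ 0 := div_ne_zero hz' hz
  have hqm : (z' / z) ^ m = 1 := by
    rw [div_pow, h, div_self (pow_ne_zero m hz)]
  have := c.pres (c.hG _ (aff_mem (z' / z) 0 hq)) (B := BB m u v) (by
    intro p
    cases p with
    | none => rw [aff_none]
    | some y =>
      rw [aff_some, add_zero, mem_BB hm, mem_BB hm, mul_pow, hqm, one_mul]) hzm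
  rw [aff_some, add_zero, div_mul_cancel₀ _ hz] at this
  exact this

/-- the line property. -/
theorem line_eq {m : ℕ} (hm : 0 < m) (hnm : n = 2 * m) {u v a b : F} (hu : u ≠ 0) (hv : v ≠ 0)
    (huv : u ≠ v) (ha : a ≠ 0) (hb : b ≠ 0) (hab : a ≠ b) (hLa : LL G m u v a)
    (hLb : LL G m u v b) :
    cl G (BB m a b : Set (Option F)) = cl G (BB m u v : Set (Option F)) := by
  apply c.steiner' _ _ (by rw [card_BB hm hu hv huv, hnm]) (by rw [card_BB hm ha hb hab, hnm])
  have key : ∀ w : F, w ≠ 0 → LL G m u v w → ∀ y : F, y ^ m = w →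
      some y ∈ cl G (BB m u v : Set (Option F)) := by
    rintro w hw ⟨z, hzw, hz⟩ y hy
    have hz0 : z ≠ 0 := by
      rintro rfl
      rw [zero_pow hm.ne'] at hzw
      exact hw hzw.symm
    exact c.scale_mem hm hz0 (hy.trans hzw.symm) hz
  intro p hp
  rw [Finset.mem_coe] at hp
  cases p with
  | none => exact absurd hp none_notMem_BB
  | some y =>
    rw [mem_BB hm] at hp
    rcases hp with hp | hp
    · exact key a ha hLa y hp
    · exact key b hb hLb y hp

omit [IsAlgClosed F] [CharZero F] c in
theorem LL_congr {m : ℕ} {a b u v : F}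
    (h : cl G (BB m a b : Set (Option F)) = cl G (BB m u v : Set (Option F))) (w : F) :
    LL G m a b w ↔ LL G m u v w := by
  rw [LL, LL, h]

omit [CharZero F] c in
theorem LL_left {m : ℕ} (hm : 0 < m) (u v : F) : LL G m u v u := by
  obtain ⟨z, hz⟩ := IsAlgClosed.exists_pow_nat_eq u hm
  exact ⟨z, hz, subset_cl _ (by rw [Finset.mem_coe, mem_BB hm]; exact Or.inl hz)⟩

omit [CharZero F] c in
theorem LL_right {m : ℕ} (hm : 0 < m) (u v : F) : LL G m u v v := by
  obtain ⟨z, hz⟩ := IsAlgClosed.exists_pow_nat_eq v hm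
  exact ⟨z, hz, subset_cl _ (by rw [Finset.mem_coe, mem_BB hm]; exact Or.inr hz)⟩

/-- invariance of the closure under `z ↦ d / z`, `d^m = u v`. -/
theorem kap_cl {m : ℕ} (hm : 0 < m) {u v : F} (hu : u ≠ 0) (hv : v ≠ 0) :
    ∃ (d : F) (hd : d ≠ 0), d ^ m = u * v ∧ ∀ p ∈ cl G (BB m u v : Set (Option F)),
      kap d hd p ∈ cl G (BB m u v : Set (Option F)) := by
  obtain ⟨d, hd⟩ := IsAlgClosed.exists_pow_nat_eq (u * v) hm
  have hd0 : d ≠ 0 := by
    rintro rfl
    rw [zero_pow hm.ne'] at hd
    exact mul_ne_zero hu hv hd.symm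
  refine ⟨d, hd0, hd, fun p hp => c.pres (c.hG _ (kap_mem d hd0)) (B := BB m u v) ?_ hp⟩
  intro q
  cases q with
  | none =>
    rw [kap_none, mem_BB hm, zero_pow hm.ne']
    constructor
    · intro h; exact absurd h none_notMem_BB
    · rintro (h | h)
      · exact absurd h.symm hu
      · exact absurd h.symm hv
  | some y =>
    by_cases hy : y = 0
    · subst hy
      rw [kap_zero, mem_BB hm, zero_pow hm.ne']
      constructor
      · rintro (h | h)
        · exact absurd h.symm hu
        · exact absurd h.symm hv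
      · intro h; exact absurd h none_notMem_BB
    · rw [kap_some _ _ hy, mem_BB hm, mem_BB hm, div_pow, hd]
      have hym : y ^ m ≠ 0 := pow_ne_zero m hy
      rw [div_eq_iff hym, div_eq_iff hym]
      constructor
      · rintro (h | h)
        · right; rw [h]; ring
        · left; rw [h]
      · rintro (h | h)
        · right; exact (mul_left_cancel₀ hu h).symm
        · left
          rw [mul_comm u v] at h
          exact (mul_left_cancel₀ hv h).symm

/-- (P1). -/
theorem P1 {m : ℕ} (hm : 0 < m) (hnm : n = 2 * m) {u v a b w : F} (hu : u ≠ 0) (hv : v ≠ 0)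
    (huv : u ≠ v) (ha : a ≠ 0) (hb : b ≠ 0) (hab : a ≠ b) (hLa : LL G m u v a)
    (hLb : LL G m u v b) (hw : w ≠ 0) (hLw : LL G m u v w) : LL G m u v (a * b / w) := by
  have he := c.line_eq hm hnm hu hv huv ha hb hab hLa hLb
  rw [← LL_congr he] at hLw ⊢
  obtain ⟨z, hz, hzm⟩ := hLw
  obtain ⟨d, hd0, hd, hdp⟩ := c.kap_cl hm ha hb
  have hz0 : z ≠ 0 := by
    rintro rfl
    rw [zero_pow hm.ne'] at hz
    exact hw hz.symm
  have := hdp _ hzm
  rw [kap_some _ _ hz0] at this
  exact ⟨d / z, by rw [div_pow, hd, hz], this⟩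

theorem notK_of_LL {m : ℕ} (hm : 0 < m) {u v w : F} (hu : u ∈ KK F) (hv : v ∈ KK F)
    (h : LL G m u v w) : w ∈ KK F := by
  obtain ⟨z, hz, hzm⟩ := h
  have hroot : ∀ y w : F, w ∈ KK F → y ^ m = w → y ∈ KK F := by
    intro y w hw hy
    rw [mem_algebraicClosure_iff] at hw ⊢
    rw [← hy] at hw
    exact IsAlgebraic.of_pow hm hw
  have hsub : (BB m u v : Set (Option F)) ⊆ AA F := by
    intro p hp
    rw [Finset.mem_coe] at hp
    cases p with
    | none => exact none_mem_AA
    | some y =>
      rw [mem_BB hm] at hp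
      rw [some_mem_AA]
      rcases hp with hp | hp
      · exact hroot y u hu hp
      · exact hroot y v hv hp
  have := cl_min ⟨Jn_AA G c.hG, 1, G.one_mem, by simp⟩ hsub hzm
  rw [some_mem_AA] at this
  rw [← hz]
  exact pow_mem this m

/-- a line through `1` and a transcendental element has no third point. -/
theorem no_third {m : ℕ} (hm : 0 < m) (hnm : n = 2 * m) {w : F} (hw : w ≠ 0) (hw1 : w ≠ 1)
    (hwt : w ≠ t) (hL : LL G m 1 t w) : False := by
  have htK := c.ht
  have ht0 : t ≠ 0 := by rintro rfl; exact htK (zero_mem _)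
  have ht1 : (1 : F) ≠ t := by rintro h; exact htK (h ▸ one_mem _)
  have hone : (1 : F) ≠ 0 := one_ne_zero
  -- w / t
  have h1 : LL G m 1 t (1 * w / t) :=
    c.P1 hm hnm hone ht0 ht1 hone hw (Ne.symm hw1) (LL_left hm 1 t) hL ht0 (LL_right hm 1 t)
  rw [one_mul] at h1
  have hwt1 : (1 : F) ≠ w / t := by
    intro h
    apply hwt
    field_simp at h
    exact h.symm
  have hwt0 : w / t ≠ 0 := div_ne_zero hw ht0
  -- t⁻¹
  have h2 : LL G m 1 t (1 * (w / t) / w) :=
    c.P1 hm hnm hone ht0 ht1 hone hwt0 hwt1 (LL_left hm 1 t) h1 hw hL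
  have e2 : 1 * (w / t) / w = t⁻¹ := by field_simp
  rw [e2] at h2
  -- t ^ 2
  have h3 : LL G m 1 t (1 * t / t⁻¹) :=
    c.P1 hm hnm hone ht0 ht1 hone ht0 ht1 (LL_left hm 1 t) (LL_right hm 1 t)
      (inv_ne_zero ht0) h2
  have e3 : 1 * t / t⁻¹ = t ^ 2 := by field_simp
  rw [e3] at h3
  -- the automorphism t ↦ -t
  have hnt : -t ∉ KK F := fun h => htK (by simpa using neg_mem h)
  obtain ⟨σ, hσ, hσt⟩ := exists_aut (transc_of_not_mem htK) (transc_of_not_mem hnt)
  have h4 : LL G m 1 (-t) (t ^ 2) := by
    obtain ⟨z, hz, hzm⟩ := h3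
    refine ⟨σ z, ?_, ?_⟩
    · rw [← map_pow, hz, map_pow, hσt]
      ring
    · have e4 : gal σ '' (BB m 1 t : Set (Option F)) = (BB m 1 (-t) : Set (Option F)) := by
        ext p
        constructor
        · rintro ⟨q, hq, rfl⟩
          rw [Finset.mem_coe] at hq ⊢
          cases q with
          | none => exact absurd hq none_notMem_BB
          | some y =>
            rw [gal_some, mem_BB hm, ← map_pow]
            rw [mem_BB hm] at hq
            rcases hq with hq | hq
            · left; rw [hq, map_one]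
            · right; rw [hq, hσt]
        · intro hp
          rw [Finset.mem_coe] at hp
          cases p with
          | none => exact absurd hp none_notMem_BB
          | some y =>
            refine ⟨some (σ.symm y), ?_, by rw [gal_some, RingEquiv.apply_symm_apply]⟩
            rw [Finset.mem_coe, mem_BB hm, ← map_pow]
            rw [mem_BB hm] at hp
            rcases hp with hp | hp
            · left; rw [hp, map_one]
            · right
              rw [hp, ← hσt, RingEquiv.symm_apply_apply]
      rw [← e4, cl_image _ (c.hG _ (gal_mem σ))]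
      exact ⟨some z, hzm, rfl⟩
  have ht20 : t ^ 2 ≠ 0 := pow_ne_zero 2 ht0
  have ht21 : (1 : F) ≠ t ^ 2 := by
    intro h
    apply htK
    rw [mem_algebraicClosure_iff]
    apply IsAlgebraic.of_pow (n := 2) (by norm_num)
    rw [← h]
    exact isAlgebraic_one
  have hnt0 : -t ≠ 0 := neg_ne_zero.2 ht0
  have hnt1 : (1 : F) ≠ -t := by rintro h; exact hnt (h ▸ one_mem _)
  have e5 := c.line_eq hm hnm hone ht0 ht1 hone ht20 ht21 (LL_left hm 1 t) h3
  have e6 := c.line_eq hm hnm hone hnt0 hnt1 hone ht20 ht21 (LL_left hm 1 (-t)) h4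
  have e7 : cl G (BB m 1 (-t) : Set (Option F)) = cl G (BB m 1 t : Set (Option F)) :=
    e6.symm.trans e5
  have h5 : LL G m 1 t (-t) := by
    rw [← LL_congr e7]
    exact LL_right hm 1 (-t)
  -- -1
  have h6 : LL G m 1 t (1 * (-t) / t) :=
    c.P1 hm hnm hone ht0 ht1 hone hnt0 hnt1 (LL_left hm 1 t) h5 ht0 (LL_right hm 1 t)
  have e8 : 1 * (-t) / t = -1 := by field_simp
  rw [e8] at h6
  have hm1 : (-1 : F) ≠ 0 := by simp
  have hm1' : (1 : F) ≠ -1 := by
    intro h
    have : (2 : F) = 0 := by linear_combination h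
    exact two_ne_zero this
  have e9 := c.line_eq hm hnm hone ht0 ht1 hone hm1 hm1' (LL_left hm 1 t) h6
  have h7 : LL G m 1 (-1) t := by
    rw [LL_congr e9]
    exact LL_right hm 1 t
  exact htK (c.notK_of_LL hm (one_mem _) (neg_mem (one_mem _)) h7)

/-- the closure of two fibres is the two fibres plus `∞, 0`. -/
theorem cl_BB {m : ℕ} (hm : 0 < m) (hnm : n = 2 * m) :
    none ∈ cl G (BB m 1 t : Set (Option F)) ∧ some 0 ∈ cl G (BB m 1 t : Set (Option F)) ∧
    ∀ p ∈ cl G (BB m 1 t : Set (Option F)), p ∉ BB m 1 t → p = none ∨ p = some 0 := by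
  have htK := c.ht
  have ht0 : t ≠ 0 := by rintro rfl; exact htK (zero_mem _)
  have ht1 : (1 : F) ≠ t := by rintro h; exact htK (h ▸ one_mem _)
  have h3 : ∀ p ∈ cl G (BB m 1 t : Set (Option F)), p ∉ BB m 1 t → p = none ∨ p = some 0 := by
    intro p hp hpB
    cases p with
    | none => exact Or.inl rfl
    | some z =>
      right
      by_contra hz
      have hz0 : z ≠ 0 := fun h => hz (by rw [h])
      rw [mem_BB hm, not_or] at hpB
      exact c.no_third hm hnm (pow_ne_zero m hz0) hpB.1 hpB.2 ⟨z, rfl, hp⟩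
  obtain ⟨z, hz, hzB⟩ := c.extra (BB m 1 t) (by rw [card_BB hm one_ne_zero ht0 ht1, hnm])
  obtain ⟨d, hd0, hd, hdp⟩ := c.kap_cl hm (one_ne_zero (α := F)) ht0
  rcases h3 z hz hzB with rfl | rfl
  · refine ⟨hz, ?_, h3⟩
    have := hdp _ hz
    rwa [kap_none] at this
  · refine ⟨?_, hz, h3⟩
    have := hdp _ hz
    rwa [kap_zero] at this

/-- The Steiner type is impossible for even `n ≥ 4`. -/
theorem even_contra {m : ℕ} (hm : 2 ≤ m) (hnm : n = 2 * m) : False := by
  classical
  have hm0 : 0 < m := by omega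
  have htK := c.ht
  have ht0 : t ≠ 0 := by rintro rfl; exact htK (zero_mem _)
  have ht1 : (1 : F) ≠ t := by rintro h; exact htK (h ▸ one_mem _)
  obtain ⟨hn, h0, h3⟩ := c.cl_BB hm0 hnm
  have hBc : (BB m 1 t).card = n := by rw [card_BB hm0 one_ne_zero ht0 ht1, hnm]
  -- the set B2
  have hk : 0 < n - 2 := by omega
  let B2 : Finset (Option F) := insert none (insert (some 0) (Fib (n - 2) (1 : F)))
  have hB2z : (some 0 : Option F) ∉ Fib (n - 2) (1 : F) := by
    rw [mem_Fib hk, zero_pow hk.ne']
    exact zero_ne_one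
  have hB2c : B2.card = n := by
    rw [Finset.card_insert_of_notMem, Finset.card_insert_of_notMem hB2z,
      card_Fib hk one_ne_zero]
    · omega
    · rw [Finset.mem_insert]
      rintro (h | h)
      · cases h
      · exact none_notMem_Fib h
  rcases Nat.lt_or_ge 2 m with hm3 | hm3
  · -- n ≥ 6
    obtain ⟨g, hg, hgB⟩ := c.move (BB m 1 t) B2 hBc hB2c
    have hcl : cl G (B2 : Set (Option F)) = g '' cl G (BB m 1 t : Set (Option F)) := by
      rw [← hgB, Finset.coe_image, cl_image _ hg]
    have hex : ∀ p ∈ cl G (B2 : Set (Option F)), p ∉ B2 → p = g none ∨ p = g (some 0) := by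
      intro p hp hpB
      rw [hcl] at hp
      obtain ⟨q, hq, rfl⟩ := hp
      have hqB : q ∉ BB m 1 t := by
        intro h
        apply hpB
        rw [← hgB]
        exact Finset.mem_image_of_mem g h
      rcases h3 q hq hqB with rfl | rfl
      · exact Or.inl rfl
      · exact Or.inr rfl
    obtain ⟨z, hz, hzB⟩ := c.extra B2 hB2c
    have hNZ : NeZero ((n - 2 : ℕ) : F) := ⟨by exact_mod_cast hk.ne'⟩
    have hNZ' : NeZero (n - 2) := ⟨hk.ne'⟩
    obtain ⟨ζ, hζ⟩ := HasEnoughRootsOfUnity.exists_primitiveRoot F (n - 2)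
    cases z with
    | none => exact hzB (Finset.mem_insert_self _ _)
    | some y =>
      have hy0 : y ≠ 0 := by
        rintro rfl
        exact hzB (Finset.mem_insert_of_mem (Finset.mem_insert_self _ _))
      have hyk : y ^ (n - 2) ≠ 1 := by
        intro h
        apply hzB
        apply Finset.mem_insert_of_mem
        apply Finset.mem_insert_of_mem
        rwa [mem_Fib hk]
      have hζ0 : ζ ≠ 0 := hζ.ne_zero hk.ne'
      -- all rotations
      have hrot : ∀ i : ℕ, some (ζ ^ i * y) = g none ∨ some (ζ ^ i * y) = g (some 0) := by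
        intro i
        have hi0 : ζ ^ i ≠ 0 := pow_ne_zero i hζ0
        have hik : (ζ ^ i) ^ (n - 2) = 1 := by
          rw [← pow_mul, mul_comm, pow_mul, hζ.pow_eq_one, one_pow]
        apply hex
        · have := c.pres (c.hG _ (aff_mem (ζ ^ i) 0 hi0)) (B := B2) (by
            intro p
            cases p with
            | none =>
              rw [aff_none]
            | some x =>
              rw [aff_some, add_zero]
              simp only [B2, Finset.mem_insert, Option.some.injEq, mem_Fib hk]
              rw [mul_pow, hik, one_mul]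
              simp [hi0]) hz
          rwa [aff_some, add_zero] at this
        · simp only [B2, Finset.mem_insert, Option.some.injEq, mem_Fib hk]
          rw [mul_pow, hik, one_mul]
          simp [hi0, hy0, hyk]
      have hne : ∀ i j : ℕ, i < n - 2 → j < n - 2 → i ≠ j →
          (some (ζ ^ i * y) : Option F) ≠ some (ζ ^ j * y) := by
        intro i j hi hj hij h
        have h1 := mul_right_cancel₀ hy0 (Option.some_injective _ h)
        exact hij (hζ.pow_inj hi hj h1)
      have n01 := hne 0 1 (by omega) (by omega) (by omega)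
      have n02 := hne 0 2 (by omega) (by omega) (by omega)
      have n12 := hne 1 2 (by omega) (by omega) (by omega)
      rcases hrot 0 with a0 | a0 <;> rcases hrot 1 with a1 | a1 <;> rcases hrot 2 with a2 | a2
      · exact n01 (a0.trans a1.symm)
      · exact n01 (a0.trans a1.symm)
      · exact n02 (a0.trans a2.symm)
      · exact n12 (a1.trans a2.symm)
      · exact n12 (a1.trans a2.symm)
      · exact n02 (a0.trans a2.symm)
      · exact n01 (a0.trans a1.symm)
      · exact n01 (a0.trans a1.symm)
  · -- n = 4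
    have hm2 : m = 2 := by omega
    subst hm2
    have hn4 : n - 2 = 2 := by omega
    have hsub : (B2 : Set (Option F)) ⊆ cl G (BB 2 1 t : Set (Option F)) := by
      intro p hp
      rw [Finset.mem_coe, Finset.mem_insert, Finset.mem_insert] at hp
      rcases hp with rfl | rfl | hp
      · exact hn
      · exact h0
      · apply subset_cl
        rw [Finset.mem_coe, BB, Finset.mem_union]
        left
        rwa [hn4] at hp
    have he := c.steiner' _ _ hBc hB2c hsub
    have hB2A : (B2 : Set (Option F)) ⊆ AA F := by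
      intro p hp
      rw [Finset.mem_coe, Finset.mem_insert, Finset.mem_insert] at hp
      rcases hp with rfl | rfl | hp
      · exact none_mem_AA
      · rw [some_mem_AA]; exact zero_mem _
      · cases p with
        | none => exact none_mem_AA
        | some y =>
          rw [mem_Fib hk] at hp
          rw [some_mem_AA, mem_algebraicClosure_iff]
          apply IsAlgebraic.of_pow hk
          rw [hp]
          exact isAlgebraic_one
    have hA : cl G (B2 : Set (Option F)) ⊆ AA F :=
      cl_min ⟨Jn_AA G c.hG, 1, G.one_mem, by simp⟩ hB2A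
    rw [he] at hA
    obtain ⟨s, hs⟩ := IsAlgClosed.exists_pow_nat_eq t (n := 2) (by norm_num)
    have h1 : some s ∈ cl G (BB 2 1 t : Set (Option F)) := by
      apply subset_cl
      rw [Finset.mem_coe, mem_BB (by norm_num)]
      exact Or.inr hs
    have h2 := hA h1
    rw [some_mem_AA] at h2
    apply htK
    rw [← hs]
    exact pow_mem h2 2

end StC

end Pool.Agent.H37PG
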