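import Mathlib
import Pool.Agent.H37PG.Main

/-!
# Transfer to the projectivization
-/

set_option autoImplicit false

namespace Pool.Agent.H37PG

open Equiv LinearAlgebra.Projectivization

section Tr

variable (F : Type) [Field F]

open Classical in
/-- the identification of `Option F` with the projective line. -/
noncomputable def ee : Option F ≃ Projectivization F (Fin 2 → F) :=
  OnePoint.equivProjectivization F

theorem ee_none : ee F none = Projectivization.mk F ![1, 0] (by simp) := rfl
theorem ee_some (z : F) : ee F (some z) = Projectivization.mk F ![z, 1] (by simp) := rfl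

/-- `σ` is induced by a semilinear bijection of `F²` (as in the frozen statement). -/
def IsSemi (σ : Perm (Projectivization F (Fin 2 → F))) : Prop :=
  ∃ (φ : F ≃+* F) (f : (Fin 2 → F) →ₛₗ[φ.toRingHom] (Fin 2 → F))
    (hf : Function.Injective f), ⇑σ = Projectivization.map f hf

variable {F}

theorem IsSemi.mul {σ τ : Perm (Projectivization F (Fin 2 → F))} (hσ : IsSemi F σ)
    (hτ : IsSemi F τ) : IsSemi F (σ * τ) := by
  obtain ⟨φ, f, hf, h⟩ := hσ
  obtain ⟨ψ, g, hg, h'⟩ := hτ
  have : RingHomCompTriple ψ.toRingHom φ.toRingHom (ψ.trans φ).toRingHom := ⟨by ext; rfl⟩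
  refine ⟨ψ.trans φ, f.comp g, hf.comp hg, ?_⟩
  rw [Projectivization.map_comp g hg f hf]
  rw [Perm.coe_mul, h, h']

theorem IsSemi.one : IsSemi F (1 : Perm (Projectivization F (Fin 2 → F))) := by
  refine ⟨RingEquiv.refl F, LinearMap.id, fun _ _ h => h, ?_⟩
  funext p
  induction p using Projectivization.ind with | h v hv => rfl

/-- conjugation by `ee`. -/
noncomputable def cj (g : Perm (Option F)) : Perm (Projectivization F (Fin 2 → F)) :=
  ((ee F).symm.trans g).trans (ee F)

theorem cj_mul (g h : Perm (Option F)) : cj (g * h) = cj g * cj h := by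
  ext1 p
  simp [cj, Perm.mul_apply]

theorem cj_apply (g : Perm (Option F)) (p : Option F) : cj g (ee F p) = ee F (g p) := by
  simp [cj]

theorem semi_of_agree (g : Perm (Option F)) (φ : F ≃+* F)
    (f : (Fin 2 → F) →ₛₗ[φ.toRingHom] (Fin 2 → F)) (hf : Function.Injective f)
    (h : ∀ p, ee F (g p) = Projectivization.map f hf (ee F p)) : IsSemi F (cj g) := by
  refine ⟨φ, f, hf, ?_⟩
  funext q
  obtain ⟨p, rfl⟩ := (ee F).surjective q
  rw [cj_apply, h]

/-- the semilinear map with matrix `(a b; c d)` over `φ`. -/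
def sl (φ : F ≃+* F) (a b c d : F) : (Fin 2 → F) →ₛₗ[φ.toRingHom] (Fin 2 → F) where
  toFun v := ![a * φ (v 0) + b * φ (v 1), c * φ (v 0) + d * φ (v 1)]
  map_add' v w := by
    ext i; fin_cases i <;> simp <;> ring
  map_smul' r v := by
    ext i; fin_cases i <;> simp <;> ring

theorem sl_apply (φ : F ≃+* F) (a b c d : F) (v : Fin 2 → F) :
    sl φ a b c d v = ![a * φ (v 0) + b * φ (v 1), c * φ (v 0) + d * φ (v 1)] := rfl

theorem sl_inj (φ : F ≃+* F) (a b c d : F) (h : a * d - b * c ≠ 0) :
    Function.Injective (sl φ a b c d) := by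
  rw [injective_iff_map_eq_zero]
  intro v hv
  have h0 : a * φ (v 0) + b * φ (v 1) = 0 := congrFun hv 0
  have h1 : c * φ (v 0) + d * φ (v 1) = 0 := congrFun hv 1
  have e0 : (a * d - b * c) * φ (v 0) = 0 := by linear_combination d * h0 - b * h1
  have e1 : (a * d - b * c) * φ (v 1) = 0 := by linear_combination a * h1 - c * h0
  have f0 : v 0 = 0 := by
    have := (mul_eq_zero.1 e0).resolve_left h
    exact (map_eq_zero_iff φ φ.injective).1 this
  have f1 : v 1 = 0 := by
    have := (mul_eq_zero.1 e1).resolve_left h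
    exact (map_eq_zero_iff φ φ.injective).1 this
  ext i; fin_cases i <;> simpa

theorem semi_aff (a b : F) (ha : a ≠ 0) : IsSemi F (cj (aff a b ha)) := by
  apply semi_of_agree _ (RingEquiv.refl F) (sl _ a b 0 1) (sl_inj _ _ _ _ _ (by simpa))
  intro p
  cases p with
  | none =>
    rw [aff_none, ee_none, Projectivization.map_mk, Projectivization.mk_eq_mk_iff']
    exact ⟨a⁻¹, by rw [sl_apply]; ext i; fin_cases i <;> simp [ha]⟩
  | some z =>
    rw [aff_some, ee_some, ee_some, Projectivization.map_mk, Projectivization.mk_eq_mk_iff']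
    exact ⟨1, by rw [sl_apply]; ext i; fin_cases i <;> simp⟩

theorem semi_gal (σ : F ≃+* F) : IsSemi F (cj (gal σ)) := by
  apply semi_of_agree _ σ (sl _ 1 0 0 1) (sl_inj _ _ _ _ _ (by simp))
  intro p
  cases p with
  | none =>
    rw [gal_none, ee_none, Projectivization.map_mk, Projectivization.mk_eq_mk_iff']
    exact ⟨1, by rw [sl_apply]; ext i; fin_cases i <;> simp⟩
  | some z =>
    rw [gal_some, ee_some, ee_some, Projectivization.map_mk, Projectivization.mk_eq_mk_iff']
    exact ⟨1, by rw [sl_apply]; ext i; fin_cases i <;> simp⟩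

theorem semi_iv : IsSemi F (cj iv) := by
  apply semi_of_agree _ (RingEquiv.refl F) (sl _ 0 1 1 0) (sl_inj _ _ _ _ _ (by simp))
  intro p
  cases p with
  | none =>
    rw [iv_none, ee_none, ee_some, Projectivization.map_mk, Projectivization.mk_eq_mk_iff']
    exact ⟨1, by rw [sl_apply]; ext i; fin_cases i <;> simp⟩
  | some z =>
    by_cases hz : z = 0
    · subst hz
      rw [iv_zero, ee_none, ee_some, Projectivization.map_mk, Projectivization.mk_eq_mk_iff']
      exact ⟨1, by rw [sl_apply]; ext i; fin_cases i <;> simp⟩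
    · rw [iv_some hz, ee_some, ee_some, Projectivization.map_mk, Projectivization.mk_eq_mk_iff']
      exact ⟨z⁻¹, by rw [sl_apply]; ext i; fin_cases i <;> simp [hz]⟩

theorem semi_of_Gam {g : Perm (Option F)} (hg : g ∈ Gam F) : IsSemi F (cj g) := by
  induction hg using Submonoid.closure_induction with
  | mem x hx =>
    rcases hx with (⟨a, b, ha, rfl⟩ | hx) | ⟨σ, rfl⟩
    · exact semi_aff a b ha
    · rw [Set.mem_singleton_iff] at hx
      subst hx
      exact semi_iv
    · exact semi_gal σ
  | one =>
    have : cj (1 : Perm (Option F)) = 1 := by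
      ext1 p; simp [cj]
    rw [this]
    exact IsSemi.one
  | mul x y _ _ hx hy =>
    rw [cj_mul]
    exact hx.mul hy

/-- the pull-back of a group of permutations of the projective line. -/
noncomputable def pull (H : Subgroup (Perm (Projectivization F (Fin 2 → F)))) :
    Subgroup (Perm (Option F)) where
  carrier := {g | cj g ∈ H}
  mul_mem' {a b} ha hb := by
    change cj (a * b) ∈ H
    rw [cj_mul]; exact H.mul_mem ha hb
  one_mem' := by
    change cj 1 ∈ H
    have : cj (1 : Perm (Option F)) = 1 := by
      ext1 p; simp [cj]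
    rw [this]; exact H.one_mem
  inv_mem' {a} ha := by
    change cj a⁻¹ ∈ H
    have : cj a⁻¹ = (cj a)⁻¹ := by
      ext1 p; simp [cj, Perm.inv_def]
    rw [this]; exact H.inv_mem ha

theorem mem_pull (H : Subgroup (Perm (Projectivization F (Fin 2 → F)))) (g : Perm (Option F)) :
    g ∈ pull H ↔ cj g ∈ H := Iff.rfl

theorem exists_cj (h : Perm (Projectivization F (Fin 2 → F))) : ∃ g, cj g = h := by
  refine ⟨((ee F).trans h).trans (ee F).symm, ?_⟩
  ext1 p
  simp [cj]

end Tr

end Pool.Agent.H37PG
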